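import Pool.Agent.MP_3ce0a0_al.Q2T6I.Asm
import Pool.Agent.MP_3ce0a0_al.Q2T7.Defs

/-!
The index lemma in the form used by the simplicial lemma.
-/

set_option autoImplicit false

namespace Pool.Agent.MP_3ce0a0_al.Q2T6I

/-- The index lemma. -/
theorem indexL : Q2T7.IndexL := by
  intro G _ U k X _ _ ⟨e⟩ _ h
  obtain ⟨h1, h2, h3⟩ := idx_of_vs (FreeGroupBasis.ofRepr e) h
  exact ⟨h1, h2, h3⟩

end Pool.Agent.MP_3ce0a0_al.Q2T6I
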