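import Pool.Agent.MP_3ce0a0_al.Q2T6I.Spec
import Pool.Agent.MP_3ce0a0_al.Q2T1.Basic

/-!
Row Big: good sets exhaust the tree, and see any given finite set of paths.
-/

set_option autoImplicit false

open scoped Classical Pointwise

namespace Pool.Agent.MP_3ce0a0_al.Q2T6I

open Q2T1

namespace RBig

section Words

variable {U A : Type} [Group U]

/-- Finite sets of group elements each of which is read along a path through the set. -/
def Suf (Y : Type) [MulAction U Y] (e : A → U) (W : Finset U) : Prop :=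
  ∀ w ∈ W, ∀ (y : Y) (Q : Finset Y), (∀ v ∈ W, v • y ∈ Q) → Adm e Q y w

variable {Y : Type} [MulAction U Y]

theorem suf_union {e : A → U} {W W' : Finset U} (h : Suf Y e W) (h' : Suf Y e W') :
    Suf Y e (W ∪ W') := by
  intro w hw y Q hQ
  rcases Finset.mem_union.1 hw with hw | hw
  · exact h w hw y Q fun v hv => hQ v (Finset.mem_union_left _ hv)
  · exact h' w hw y Q fun v hv => hQ v (Finset.mem_union_right _ hv)

theorem closure_basis (b : FreeGroupBasis A U) : Subgroup.closure (Set.range b) = ⊤ := by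
  rw [eq_top_iff]
  intro g _
  have h1 : b.repr g ∈ Subgroup.closure (Set.range (FreeGroup.of : A → FreeGroup A)) := by
    rw [FreeGroup.closure_range_of]
    exact Subgroup.mem_top _
  have h2 : ∀ x ∈ Subgroup.closure (Set.range (FreeGroup.of : A → FreeGroup A)),
      b.repr.symm x ∈ Subgroup.closure (Set.range b) := by
    intro x hx
    induction hx using Subgroup.closure_induction with
    | mem x hx =>
      obtain ⟨a, rfl⟩ := hx
      exact Subgroup.subset_closure ⟨a, rfl⟩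
    | one => rw [map_one]; exact one_mem _
    | mul x y _ _ hx hy => rw [map_mul]; exact mul_mem hx hy
    | inv x _ hx => rw [map_inv]; exact inv_mem hx
  have h3 := h2 _ h1
  rwa [MulEquiv.symm_apply_apply] at h3

theorem exists_suf_mem (Y : Type) [MulAction U Y] (b : FreeGroupBasis A U) (g : U) :
    ∃ W : Finset U, Suf Y b W ∧ g ∈ W := by
  have hg : g ∈ Subgroup.closure (Set.range b) := by
    rw [closure_basis]
    exact Subgroup.mem_top _
  induction hg using Subgroup.closure_induction_left with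
  | one =>
    refine ⟨{1}, fun w hw y Q _ => ?_, Finset.mem_singleton_self _⟩
    rw [Finset.mem_singleton.1 hw]
    exact Adm.one
  | mul_left x hx g _ ih =>
    obtain ⟨a, rfl⟩ := hx
    obtain ⟨W, hW, hg⟩ := ih
    refine ⟨insert (b a * g) W, fun w hw y Q hQ => ?_, Finset.mem_insert_self _ _⟩
    have hQ' : ∀ v ∈ W, v • y ∈ Q := fun v hv => hQ v (Finset.mem_insert_of_mem hv)
    rcases Finset.mem_insert.1 hw with rfl | hw
    · exact Adm.fwd g a (hW g hg y Q hQ') (hQ _ (Finset.mem_insert_self _ _))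
    · exact hW w hw y Q hQ'
  | inv_mul_cancel x hx g _ ih =>
    obtain ⟨a, rfl⟩ := hx
    obtain ⟨W, hW, hg⟩ := ih
    refine ⟨insert ((b a)⁻¹ * g) W, fun w hw y Q hQ => ?_, Finset.mem_insert_self _ _⟩
    have hQ' : ∀ v ∈ W, v • y ∈ Q := fun v hv => hQ v (Finset.mem_insert_of_mem hv)
    rcases Finset.mem_insert.1 hw with rfl | hw
    · exact Adm.bwd g a (hW g hg y Q hQ') (hQ _ (Finset.mem_insert_self _ _))
    · exact hW w hw y Q hQ'

theorem exists_suf (Y : Type) [MulAction U Y] (b : FreeGroupBasis A U) (W : Finset U) :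
    ∃ W' : Finset U, Suf Y b W' ∧ W ⊆ W' := by
  induction W using Finset.induction_on with
  | empty => exact ⟨∅, fun w hw => absurd hw (Finset.notMem_empty w), Finset.Subset.refl _⟩
  | insert g W _ ih =>
    obtain ⟨W1, h1, h2⟩ := ih
    obtain ⟨W2, h3, h4⟩ := exists_suf_mem Y b g
    refine ⟨W2 ∪ W1, suf_union h3 h1, fun w hw => ?_⟩
    rcases Finset.mem_insert.1 hw with rfl | hw
    · exact Finset.mem_union_left _ h4
    · exact Finset.mem_union_right _ (h2 hw)

end Words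

section Tree

variable {X : Type} [MetricSpace X] [IsTree X]

/-- The medians of the triples of `S`. -/
noncomputable def meds (S : Finset X) : Finset X :=
  (S ×ˢ S ×ˢ S).image fun p => med p.1 p.2.1 p.2.2

theorem mem_meds {S : Finset X} {v : X} :
    v ∈ meds S ↔ v ∈ S ∨ ∃ p ∈ S, ∃ q ∈ S, ∃ r ∈ S, Tri v p q r := by
  simp only [meds, Finset.mem_image, Finset.mem_product]
  constructor
  · rintro ⟨⟨p, q, r⟩, ⟨hp, hq, hr⟩, rfl⟩
    by_cases h1 : p = med p q r
    · exact Or.inl (h1 ▸ hp)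
    by_cases h2 : q = med p q r
    · exact Or.inl (h2 ▸ hq)
    by_cases h3 : r = med p q r
    · exact Or.inl (h3 ▸ hr)
    exact Or.inr ⟨p, hp, q, hq, r, hr, tri_med h1 h2 h3⟩
  · rintro (h | ⟨p, hp, q, hq, r, hr, h⟩)
    · exact ⟨(v, v, v), ⟨h, h, h⟩, med_self12 _ _⟩
    · exact ⟨(p, q, r), ⟨hp, hq, hr⟩, h.med_eq⟩

theorem exists_beyond {S : Finset X} {x m : X} (hx : x ∈ meds S) (hne : x ≠ m) :
    ∃ s ∈ S, s ∈ dir m x := by
  rcases mem_meds.1 hx with h | ⟨p, hp, q, hq, r, hr, h⟩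
  · exact ⟨x, h, self_mem_dir hne⟩
  · obtain ⟨w, hw, -, h1, -⟩ := h.exists_away m m
    refine ⟨w, ?_, h1.mem_dir hne⟩
    rcases hw with rfl | rfl | rfl
    exacts [hp, hq, hr]

theorem medCl_meds (S : Finset X) : MedCl (meds S : Set X) := by
  intro x hx y hy z hz m h1 h2 h3
  by_cases e1 : x = m
  · exact e1 ▸ hx
  by_cases e2 : y = m
  · exact e2 ▸ hy
  by_cases e3 : z = m
  · exact e3 ▸ hz
  have ht : Tri m x y z := ⟨e1, e2, e3, h1, h2, h3⟩
  obtain ⟨p, hp, hp'⟩ := exists_beyond (Finset.mem_coe.1 hx) e1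
  obtain ⟨q, hq, hq'⟩ := exists_beyond (Finset.mem_coe.1 hy) e2
  obtain ⟨r, hr, hr'⟩ := exists_beyond (Finset.mem_coe.1 hz) e3
  exact Finset.mem_coe.2 (mem_meds.2 (Or.inr ⟨p, hp, q, hq, r, hr, ht.of_mem_dir3 hp' hq' hr'⟩))

theorem exists_tri {U : Type} [Group U] [MulAction U X] {x₀ : X} (h : Mn U x₀) (x : X) :
    ∃ g : U × U × U, Tri x (g.1 • x₀) (g.2.1 • x₀) (g.2.2 • x₀) := by
  obtain ⟨a, b, c, ht⟩ := h.br x
  obtain ⟨g1, h1⟩ := h.min x a ht.1
  obtain ⟨g2, h2⟩ := h.min x b ht.2.1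
  obtain ⟨g3, h3⟩ := h.min x c ht.2.2.1
  exact ⟨(g1, g2, g3), ht.of_mem_dir3 h1 h2 h3⟩

end Tree

end RBig

open RBig in
theorem rowBig : StmtBig := by
  intro U A X _ _ _ _ _ _ b x₀ hM F W
  obtain ⟨W1, hW1, hWW⟩ := exists_suf X b W
  choose t ht using exists_tri hM
  let F1 : Finset X := F ∪ (W1 ×ˢ F).image fun p => p.1 • p.2
  obtain ⟨W0, hW0, hsub⟩ := exists_suf X b
    (insert 1 ((Finset.univ.image fun a => b a) ∪
      F1.biUnion fun x => {(t x).1, (t x).2.1, (t x).2.2}))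
  let S : Finset X := W0.image fun g => g • x₀
  have hS : ∀ g ∈ W0, g • x₀ ∈ S := fun g hg => Finset.mem_image_of_mem _ hg
  have hSV : ∀ p ∈ S, p ∈ meds S := fun p hp => mem_meds.2 (Or.inl hp)
  have hF1 : ∀ x ∈ F1, x ∈ meds S := by
    intro x hx
    have h0 : ∀ g ∈ ({(t x).1, (t x).2.1, (t x).2.2} : Finset U), g • x₀ ∈ S := fun g hg =>
      hS g (hsub (Finset.mem_insert_of_mem
        (Finset.mem_union_right _ (Finset.mem_biUnion.2 ⟨x, hx, hg⟩))))
    exact mem_meds.2 (Or.inr ⟨_, h0 _ (by simp), _, h0 _ (by simp), _, h0 _ (by simp), ht x⟩)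
  refine ⟨meds S, ⟨?_, fun a => ?_, medCl_meds S, fun v hv => ?_⟩, fun x hx => ?_,
    fun y hy w hw => ?_⟩
  · have h1 := hS 1 (hsub (Finset.mem_insert_self _ _))
    rw [one_smul] at h1
    exact hSV _ h1
  · exact hSV _ (hS _ (hsub (Finset.mem_insert_of_mem (Finset.mem_union_left _
      (Finset.mem_image_of_mem _ (Finset.mem_univ a))))))
  · rcases mem_meds.1 hv with h | ⟨p, hp, q, hq, r, hr, h⟩
    · obtain ⟨g, hg, rfl⟩ := Finset.mem_image.1 h
      exact Or.inl ⟨g, hW0 g hg x₀ _ fun v hv => hSV _ (hS v hv), rfl⟩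
    · exact Or.inr ⟨p, hSV p hp, q, hSV q hq, r, hSV r hr, h⟩
  · exact hF1 x (Finset.mem_union_left _ hx)
  · exact hW1 w (hWW hw) y _ fun v hv => hF1 _ (Finset.mem_union_right _
      (Finset.mem_image.2 ⟨(v, y), Finset.mem_product.2 ⟨hv, hy⟩, rfl⟩))

end Pool.Agent.MP_3ce0a0_al.Q2T6I
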