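import Pool.Agent.MP_3ce0a0_al.Q2T6I.Spec
import Pool.Agent.MP_3ce0a0_al.Q2T1.Basic

/-!
Row Cnt: the number of directions of a finite median closed set.
-/

set_option autoImplicit false

open scoped Classical Pointwise

namespace Pool.Agent.MP_3ce0a0_al.Q2T6I

open Q2T1

namespace RCnt

variable {X : Type} [MetricSpace X] [IsTree X]

/-- `x` is the last point of `V` before `z` on the segment from the root to `z`. -/
def Par (V : Finset X) (x₀ x z : X) : Prop :=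
  x ∈ V ∧ x ≠ z ∧ Btw x₀ x z ∧ ∀ w ∈ V, w ≠ z → Btw x₀ w z → Btw x₀ w x

theorem ex_par {V : Finset X} {x₀ : X} (h0 : x₀ ∈ V) (z : X) (hz : z ≠ x₀) :
    ∃ x, Par V x₀ x z := by
  obtain ⟨x, hx, hmax⟩ := Finset.exists_max_image (V.filter fun w => w ≠ z ∧ Btw x₀ w z)
    (fun w => dist x₀ w) ⟨x₀, Finset.mem_filter.2 ⟨h0, hz.symm, btw_left _ _⟩⟩
  obtain ⟨h1, h2, h3⟩ := Finset.mem_filter.1 hx
  exact ⟨x, h1, h2, h3, fun w hw hne hb =>
    hb.of_dist_le h3 (hmax w (Finset.mem_filter.2 ⟨hw, hne, hb⟩))⟩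

omit [IsTree X] in
theorem Par.eq_of_btw {V : Finset X} {x₀ x z m : X} (h : Par V x₀ x z) (hm : m ∈ V)
    (hb : Btw x m z) (hne : m ≠ x) : m = z := by
  by_contra hc
  exact hne ((h.2.2.2 m hm hc (h.2.2.1.trans_right hb)).antisymm (h.2.2.1.trans_right' hb))

theorem Par.inj {V : Finset X} (hV : MedCl (V : Set X)) {x₀ x z w : X} (hz : z ∈ V) (hw : w ∈ V)
    (h1 : Par V x₀ x z) (h2 : Par V x₀ x w) (hd : dir x z = dir x w) : z = w := by
  have hm : med x z w ∈ V :=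
    Finset.mem_coe.1 (hV.med_mem (Finset.mem_coe.2 h1.1) (Finset.mem_coe.2 hz)
      (Finset.mem_coe.2 hw))
  have hne : med x z w ≠ x := fun e =>
    (dir_eq_iff h1.2.1.symm).1 hd (med_eq_left_iff.1 e)
  exact (h1.eq_of_btw hm (med_btw12 x z w) hne).symm.trans
    (h2.eq_of_btw hm (med_btw13 x z w) hne)

omit [IsTree X] in
theorem ex_child {V : Finset X} {x₀ x y : X} (hx : x ∈ V) (hy : y ∈ V) (hne : y ≠ x)
    (hb : Btw x₀ x y) : ∃ z ∈ V, z ≠ x₀ ∧ z ≠ x ∧ Btw x z y ∧ ∀ p, Par V x₀ p z → p = x := by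
  obtain ⟨z, hz, hmin⟩ := Finset.exists_min_image (V.filter fun w => w ≠ x ∧ Btw x w y)
    (fun w => dist x w) ⟨y, Finset.mem_filter.2 ⟨hy, hne, btw_right _ _⟩⟩
  obtain ⟨h1, h2, h3⟩ := Finset.mem_filter.1 hz
  have h4 : Btw x₀ x z := hb.trans_right' h3
  refine ⟨z, h1, fun e => ?_, h2, h3, fun p hp => ?_⟩
  · rw [e] at h4 h2
    exact h2 h4.eq_of_self.symm
  · by_contra hc
    have h5 : Btw x p z := (hp.2.2.2 x hx h2.symm h4).trans_left' hp.2.2.1
    exact absurd (h5.dist_lt_left hp.2.1)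
      (not_lt.2 (hmin p (Finset.mem_filter.2 ⟨hp.1, hc, h5.trans_left h3⟩)))

theorem card_down {V : Finset X} {x₀ : X} (h0 : x₀ ∈ V) :
    ((dirs V V).filter fun d => x₀ ∈ d.2).card = (V.erase x₀).card := by
  have h : ((dirs V V).filter fun d => x₀ ∈ d.2) =
      (V.erase x₀).image fun x => (x, dir x x₀) := by
    ext d
    rw [Finset.mem_filter, mem_dirs, Finset.mem_image]
    constructor
    · rintro ⟨⟨x, hx, y, -, -, rfl⟩, h2⟩
      exact ⟨x, Finset.mem_erase.2 ⟨(ne_of_mem_dir h2).symm, hx⟩, by rw [dir_eq_of_mem h2]⟩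
    · rintro ⟨x, hx, rfl⟩
      obtain ⟨h1, h2⟩ := Finset.mem_erase.1 hx
      exact ⟨⟨x, h2, x₀, h0, h1.symm, rfl⟩, self_mem_dir h1.symm⟩
  rw [h]
  exact Finset.card_image_of_injOn fun x _ y _ e => congrArg Prod.fst e

theorem card_up {V : Finset X} (hV : MedCl (V : Set X)) {x₀ : X} (h0 : x₀ ∈ V) :
    ((dirs V V).filter fun d => ¬ x₀ ∈ d.2).card = (V.erase x₀).card := by
  choose! par hpar using ex_par h0
  have h : ((dirs V V).filter fun d => ¬ x₀ ∈ d.2) =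
      (V.erase x₀).image fun z => (par z, dir (par z) z) := by
    ext d
    rw [Finset.mem_filter, mem_dirs, Finset.mem_image]
    constructor
    · rintro ⟨⟨x, hx, y, hy, hne, rfl⟩, h2⟩
      obtain ⟨z, h3, h4, h5, h6, h7⟩ := ex_child hx hy hne (not_mem_dir.1 h2).symm
      refine ⟨z, Finset.mem_erase.2 ⟨h4, h3⟩, ?_⟩
      rw [h7 _ (hpar z h4), h6.dir_eq h5]
    · rintro ⟨z, hz, rfl⟩
      obtain ⟨h1, h2⟩ := Finset.mem_erase.1 hz
      have h3 := hpar z h1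
      exact ⟨⟨par z, h3.1, z, h2, h3.2.1.symm, rfl⟩, not_mem_dir.2 h3.2.2.1.symm⟩
  rw [h]
  refine Finset.card_image_of_injOn fun z hz w hw e => ?_
  obtain ⟨h1, h2⟩ := Finset.mem_erase.1 (Finset.mem_coe.1 hz)
  obtain ⟨h3, h4⟩ := Finset.mem_erase.1 (Finset.mem_coe.1 hw)
  have e1 : par z = par w := congrArg Prod.fst e
  have e2 : dir (par z) z = dir (par w) w := congrArg Prod.snd e
  have h5 := hpar w h3
  rw [← e1] at h5 e2
  exact Par.inj hV h2 h4 (hpar z h1) h5 e2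

end RCnt

theorem rowCnt : StmtCnt := by
  intro X _ _ V ⟨x₀, h0⟩ hV
  have h1 := Finset.card_filter_add_card_filter_not (s := dirs V V) fun d => x₀ ∈ d.2
  rw [RCnt.card_down h0, RCnt.card_up hV h0] at h1
  have h2 := Finset.card_erase_add_one h0
  omega

end Pool.Agent.MP_3ce0a0_al.Q2T6I
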