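import Pool.Agent.MP_3ce0a0_al.Q2T6I.Spec

/-! Row Free: subgroups of free groups. -/

set_option autoImplicit false

open scoped Classical Pointwise

namespace Pool.Agent.MP_3ce0a0_al.Q2T6I

namespace RFree

variable {U : Type} [Group U]

theorem top (G : Type) [Group G] [IsFreeGroup G] :
    Subgroup.closure (Set.range (IsFreeGroup.of : IsFreeGroup.Generators G → G)) = ⊤ := by
  rw [eq_top_iff]
  intro x _
  let S := Subgroup.closure (Set.range (IsFreeGroup.of : IsFreeGroup.Generators G → G))
  let f : G →* S := IsFreeGroup.lift fun a => ⟨IsFreeGroup.of a, Subgroup.subset_closure ⟨a, rfl⟩⟩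
  have h : S.subtype.comp f = MonoidHom.id G := IsFreeGroup.ext_hom fun a => by
    simp only [f, MonoidHom.comp_apply, IsFreeGroup.lift_of, MonoidHom.id_apply]
    rfl
  have hx : ((f x : S) : G) = x := DFunLike.congr_fun h x
  exact hx ▸ (f x).2

theorem gen (H : Subgroup U) [IsFreeGroup H] :
    Subgroup.closure (Set.range fun a : IsFreeGroup.Generators H =>
      ((IsFreeGroup.of a : H) : U)) = H := by
  have h := congrArg (Subgroup.map H.subtype) (top H)
  rw [MonoidHom.map_closure, ← Set.range_comp, ← MonoidHom.range_eq_map,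
    Subgroup.range_subtype] at h
  exact h

theorem sub (G : Type) [Group G] [IsFreeGroup G] (h : ∀ g k : G, g * k = k * g) :
    Subsingleton (IsFreeGroup.Generators G) := by
  refine ⟨fun a b => by_contra fun hab => ?_⟩
  let f : G →* Equiv.Perm (Fin 3) :=
    IsFreeGroup.lift fun c => if c = a then Equiv.swap 0 1 else Equiv.swap 1 2
  have := congrArg f (h (IsFreeGroup.of a) (IsFreeGroup.of b))
  simp only [f, map_mul, IsFreeGroup.lift_of, if_true, if_neg (Ne.symm hab)] at this
  revert this
  decide

end RFree

open RFree in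
theorem rowFree : StmtFree := by
  intro U _ _
  refine ⟨fun H r => ?_, fun H h => ?_, fun g n hn h => ?_⟩
  · by_cases he : Nonempty (Fin r ↪ IsFreeGroup.Generators H)
    · obtain ⟨e⟩ := he
      let f : Fin r → H →* Multiplicative ℚ := fun i =>
        IsFreeGroup.lift fun a => Multiplicative.ofAdd (if e i = a then 1 else 0)
      refine Or.inl ⟨fun i => ((IsFreeGroup.of (e i) : H) : U),
        fun i g => if hg : g ∈ H then (f i ⟨g, hg⟩).toAdd else 0,
        fun i => (IsFreeGroup.of (e i) : H).2, fun i g k hg hk => ?_, fun i j => ?_⟩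
      · simp only [dif_pos hg, dif_pos hk, dif_pos (H.mul_mem hg hk)]
        rw [← toAdd_mul, ← map_mul]
        rfl
      · simp only [dif_pos (IsFreeGroup.of (e j) : H).2, f, Subtype.coe_eta, IsFreeGroup.lift_of,
          toAdd_ofAdd, e.apply_eq_iff_eq]
    · right
      have hf : Finite (IsFreeGroup.Generators H) := by
        by_contra hi
        rw [not_finite_iff_infinite] at hi
        exact he ⟨Fin.valEmbedding.trans (Infinite.natEmbedding _)⟩
      have := Fintype.ofFinite (IsFreeGroup.Generators H)
      refine ⟨Finset.univ.image fun a : IsFreeGroup.Generators H => ((IsFreeGroup.of a : H) : U),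
        lt_of_le_of_lt Finset.card_image_le ?_, ?_⟩
      · by_contra hc
        exact he (Function.Embedding.nonempty_of_card_le (by
          rw [Fintype.card_fin]
          exact not_lt.1 hc))
      · rw [Finset.coe_image, Finset.coe_univ, Set.image_univ]
        exact gen H
  · have hs := sub H fun g k => Subtype.ext (h g g.2 k k.2)
    by_cases hn : Nonempty (IsFreeGroup.Generators H)
    · obtain ⟨a⟩ := hn
      refine ⟨(IsFreeGroup.of a : H), (IsFreeGroup.of a : H).2, fun g hg => ?_⟩
      rw [← gen H] at hg
      refine (Subgroup.closure_le _).2 ?_ hg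
      rintro _ ⟨b, rfl⟩
      rw [Subsingleton.elim b a]
      exact Subgroup.mem_zpowers _
    · refine ⟨1, H.one_mem, fun g hg => ?_⟩
      rw [← gen H] at hg
      refine (Subgroup.closure_le _).2 ?_ hg
      rintro _ ⟨b, rfl⟩
      exact (hn ⟨b⟩).elim
  · have h1 : IsFreeGroup.toFreeGroup U g ^ n.natAbs = 1 := by
      rw [← map_pow, pow_natAbs_eq_one.2 h, map_one]
    have h2 := (pow_eq_one_iff_left (Int.natAbs_ne_zero.2 hn)).1 h1
    exact (IsFreeGroup.toFreeGroup U).injective (h2.trans (map_one _).symm)

end Pool.Agent.MP_3ce0a0_al.Q2T6I
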