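import Pool.Agent.MP_3ce0a0_al.Q2T6I.Spec

/-! Rows Sum and Glob of the index count. -/

set_option autoImplicit false

open scoped Classical Pointwise

namespace Pool.Agent.MP_3ce0a0_al.Q2T6I

open Q2T1

namespace RGlob

theorem smul_dir {U X : Type} [Group U] [MetricSpace X] [MulAction U X] [BAct U X] (g : U)
    (x y : X) : g • dir x y = dir (g • x) (g • y) := by
  ext z
  rw [Set.mem_smul_set_iff_inv_smul_mem]
  refine not_congr ⟨fun h => ?_, fun h => ?_⟩
  · have h2 := BAct.btw g _ _ _ h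
    rwa [smul_inv_smul] at h2
  · have h2 := BAct.btw g⁻¹ _ _ _ h
    rwa [inv_smul_smul, inv_smul_smul] at h2

/-- The number of edges with a given label. -/
noncomputable def cnt {U Y : Type} [Group U] [MulAction U Y] (g : U) (P : Finset Y) : ℤ :=
  ((P.filter fun p => g • p ∈ P).card : ℤ)

theorem chi_eq {U A Y : Type} [Group U] [Fintype A] [MulAction U Y] (e : A → U) (P : Finset Y) :
    chi e P = (P.card : ℤ) - ∑ a, cnt (e a) P := rfl

theorem le_cnt {U Y : Type} [Group U] [MulAction U Y] (g : U) (P S : Finset Y)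
    (h : ∀ d ∈ S, d ∈ P ∧ g • d ∈ P) : (S.card : ℤ) ≤ cnt g P :=
  Int.ofNat_le.2 (Finset.card_le_card fun d hd => Finset.mem_filter.2 (h d hd))

end RGlob

theorem rowSum : StmtSum := by
  intro U A Y I _ _ _ e P π J hJ hπ
  unfold chi
  rw [Finset.sum_sub_distrib, Finset.sum_comm]
  have h1 : (P.card : ℤ) = ∑ i ∈ J, ((P.filter fun p => π p = i).card : ℤ) := by
    rw [Finset.card_eq_sum_card_fiberwise (f := π) (s := P) (t := J) fun p hp => hJ p hp]
    push_cast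
    rfl
  rw [← h1]
  refine congrArg _ (Finset.sum_congr rfl fun a _ => ?_)
  rw [Finset.card_eq_sum_card_fiberwise (f := π) (t := J)
    fun p hp => hJ p (Finset.mem_filter.1 hp).1]
  push_cast
  refine Finset.sum_congr rfl fun i _ => congrArg _ (congrArg _ (Finset.ext fun p => ?_))
  simp only [Finset.mem_filter]
  constructor
  · rintro ⟨⟨h2, h3⟩, h4⟩
    exact ⟨⟨h2, h4⟩, h3, (hπ p h2 a h3).trans h4⟩
  · rintro ⟨⟨h2, h4⟩, h3, _⟩
    exact ⟨⟨h2, h3⟩, h4⟩

theorem rowGlob (hC : StmtCnt) : StmtGlob := by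
  intro U A X _ _ _ _ _ _ e x₀ V h0 he hV
  have h1 := hC X V ⟨x₀, h0⟩ hV
  have h2 : ∀ a, 2 * RGlob.cnt (e a) V - 2 ≤ RGlob.cnt (e a) (dirs V V) := by
    intro a
    show 2 * ((V.filter fun p => e a • p ∈ V).card : ℤ) - 2 ≤ _
    rw [← hC X (V.filter fun p => e a • p ∈ V) ⟨x₀, Finset.mem_filter.2 ⟨h0, he a⟩⟩ (by
      intro x hx y hy z hz m a1 a2 a3
      have hx' := Finset.mem_filter.1 (Finset.mem_coe.1 hx)
      have hy' := Finset.mem_filter.1 (Finset.mem_coe.1 hy)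
      have hz' := Finset.mem_filter.1 (Finset.mem_coe.1 hz)
      exact Finset.mem_coe.2 (Finset.mem_filter.2 ⟨hV x hx'.1 y hy'.1 z hz'.1 m a1 a2 a3,
        hV _ hx'.2 _ hy'.2 _ hz'.2 _ (BAct.btw _ _ _ _ a1) (BAct.btw _ _ _ _ a2)
          (BAct.btw _ _ _ _ a3)⟩))]
    refine RGlob.le_cnt _ _ _ fun d hd => ?_
    obtain ⟨x, hx, y, hy, hne, rfl⟩ := mem_dirs.1 hd
    have hx' := Finset.mem_filter.1 hx
    have hy' := Finset.mem_filter.1 hy
    refine ⟨mem_dirs.2 ⟨x, hx'.1, y, hy'.1, hne, rfl⟩,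
      mem_dirs.2 ⟨e a • x, hx'.2, e a • y, hy'.2, fun h => hne (smul_left_cancel _ h), ?_⟩⟩
    rw [Prod.smul_mk, RGlob.smul_dir]
  have h3 := Finset.sum_le_sum fun a (_ : a ∈ (Finset.univ : Finset A)) => h2 a
  rw [Finset.sum_sub_distrib, ← Finset.mul_sum, Finset.sum_const, Finset.card_univ,
    nsmul_eq_mul] at h3
  rw [RGlob.chi_eq, RGlob.chi_eq]
  linarith

end Pool.Agent.MP_3ce0a0_al.Q2T6I
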