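import Pool.Agent.MP_3ce0a0_al.Q2T6I.Spec
import Pool.Agent.MP_3ce0a0_al.Q2T1.Basic

/-!
Lower bounds for the local index.
-/

set_option autoImplicit false

open scoped Classical Pointwise

namespace Pool.Agent.MP_3ce0a0_al.Q2T6I

open Q2T1

namespace RLoc

variable {U A X : Type} [Group U] [MetricSpace X] [MulAction U X] [BAct U X]

theorem btw_smul (g : U) {x y z : X} : Btw (g • x) (g • y) (g • z) ↔ Btw x y z :=
  ⟨fun h => by simpa only [inv_smul_smul] using BAct.btw g⁻¹ _ _ _ h, BAct.btw g _ _ _⟩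

theorem smul_dir (g : U) (x z : X) : g • dir x z = dir (g • x) (g • z) := by
  ext w
  rw [Set.mem_smul_set_iff_inv_smul_mem, mem_dir, mem_dir, ← btw_smul g, smul_inv_smul]

theorem smul_pair (g : U) (x z : X) :
    g • ((x, dir x z) : X × Set X) = (g • x, dir (g • x) (g • z)) := by
  rw [Prod.smul_mk, smul_dir]

variable [IsTree X]

theorem fix_iff {g : U} {x z : X} (hz : z ≠ x) :
    g • ((x, dir x z) : X × Set X) = (x, dir x z) ↔ FixD g x z := by
  rw [smul_pair, Prod.mk.injEq]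
  refine and_congr_right fun h => ?_
  rw [h, eq_comm, dir_eq_iff hz]

theorem fix_zpow {g : U} {x z : X} (hz : z ≠ x) (h : FixD g x z) (n : ℤ) : FixD (g ^ n) x z :=
  (fix_iff hz).1 (Subgroup.zpow_mem (MulAction.stabilizer U ((x, dir x z) : X × Set X))
    ((fix_iff hz).2 h) n)

omit [BAct U X] [IsTree X] in
theorem adm_fst {e : A → U} {V : Finset X} {y x : X} {δ : Set X} {g : U}
    (h : Adm e (dirs (comp e V y) V) ((x, δ) : X × Set X) g) : Adm e V x g :=
  h.map Prod.fst (fun _ _ => rfl) fun p hp => by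
    obtain ⟨x, hx, z, -, -, rfl⟩ := mem_dirs.1 hp
    exact (mem_comp.1 hx).1

variable [Fintype A]

theorem low (hL : StmtLow) (hF : StmtFree) (b : FreeGroupBasis A U) (V : Finset X) (y : X)
    (hS : Sm U X) (hy : y ∈ V) (T : Finset X) (hT : T ⊆ V)
    (h1 : ∀ z ∈ T, z ≠ y ∧ ∀ g : U, Loop b V y g → FixD g y z → g = 1)
    (h2 : ∀ z ∈ T, ∀ w ∈ T, ∀ g : U, Loop b V y g → g • z ∈ dir y w → z = w) :
    (T.card : ℤ) ≤ chi b (dirs (comp b V y) V) := by
  have := b.isFreeGroup
  have hc : (T.image fun z => ((y, dir y z) : X × Set X)).card = T.card := by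
    refine Finset.card_image_of_injOn fun z hz w hw h => ?_
    refine h2 z hz w hw 1 ⟨Adm.one, one_smul _ _⟩ ?_
    rw [one_smul, ← (Prod.mk.inj h).2]
    exact self_mem_dir (h1 z hz).1
  rw [← hc]
  refine hL U A _ b _ _ (fun d hd => ?_) (fun d hd => ?_) (fun d hd g hg => ?_)
    fun d hd d' hd' g hg hgd => ?_
  · obtain ⟨z, hz, rfl⟩ := Finset.mem_image.1 hd
    exact mem_dirs.2 ⟨y, mem_comp.2 ⟨hy, 1, Adm.one, one_smul _ _⟩, z, hT hz, (h1 z hz).1, rfl⟩
  · obtain ⟨c, hc1, hc2⟩ := (hF U).2.1 (loops b _ d hd) fun g hg h hh => by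
      obtain ⟨x, -, z, -, hz, rfl⟩ := mem_dirs.1 hd
      exact hS.v1 g h x z hz ((fix_iff hz).1 hg.2) ((fix_iff hz).1 hh.2)
    exact ⟨c, hc1, hc2⟩
  · obtain ⟨z, hz, rfl⟩ := Finset.mem_image.1 hd
    have h := (fix_iff (h1 z hz).1).1 hg.2
    exact (h1 z hz).2 g ⟨adm_fst hg.1, h.1⟩ h
  · obtain ⟨z, hz, rfl⟩ := Finset.mem_image.1 hd
    obtain ⟨w, hw, rfl⟩ := Finset.mem_image.1 hd'
    rw [smul_pair, Prod.mk.injEq] at hgd
    obtain ⟨h3, h4⟩ := hgd
    rw [h3] at h4
    rw [h2 z hz w hw g ⟨adm_fst hg, h3⟩ ?_]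
    rw [← h4]
    refine self_mem_dir fun h => (h1 z hz).1 ?_
    exact smul_left_cancel g (h.trans h3.symm)

theorem dual_zero {U : Type} [Group U] (H : U → Prop) : Dual H 0 :=
  ⟨Fin.elim0, Fin.elim0, fun i => i.elim0, fun i => i.elim0, fun i => i.elim0⟩

theorem two (hL : StmtLow) (hU : StmtUp) (hF : StmtFree) (b : FreeGroupBasis A U) (V : Finset X)
    (y : X) (hS : Sm U X) (hy : y ∈ V) (r : ℕ) (h : Dual (Loop b V y) r) :
    2 * (r : ℤ) - 2 ≤ jj b V y := by
  have h1 := low hL hF b V y hS hy ∅ (by simp) (by simp) (by simp)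
  have h2 := hU U A X b V y r hy h
  rw [Finset.card_empty] at h1
  unfold jj
  omega

theorem one (hL : StmtLow) (hU : StmtUp) (hF : StmtFree) (b : FreeGroupBasis A U) (V : Finset X)
    (y : X) (hS : Sm U X) (hy : y ∈ V) {p q r : X} (hp : p ∈ V) (hq : q ∈ V) (hr : r ∈ V)
    (ht : Tri y p q r) : 1 ≤ jj b V y := by
  have := b.isFreeGroup
  rcases (hF U).1 (loops b V y hy) 2 with h2 | ⟨F, hF2, hcl⟩
  · have h := two hL hU hF b V y hS hy 2 h2
    omega
  rcases (hF U).1 (loops b V y hy) 1 with h1 | ⟨F', hF1, hcl'⟩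
  · have hup := hU U A X b V y 1 hy h1
    obtain ⟨c, hc⟩ : ∃ c : U, ∀ g, Loop b V y g → g ∈ Subgroup.zpowers c := by
      obtain ⟨c, hc⟩ := Finset.card_le_one_iff_subset_singleton.1 (Nat.le_of_lt_succ hF2)
      refine ⟨c, fun g hg => ?_⟩
      have hg' : g ∈ loops b V y hy := hg
      rw [← hcl] at hg'
      rw [Subgroup.zpowers_eq_closure]
      exact Subgroup.closure_mono (fun u hu => Finset.mem_singleton.1 (hc hu)) hg'
    have key : ∀ z ∈ V, z ≠ y → 1 ≤ jj b V y ∨ ∃ n : ℤ, c ^ n ≠ 1 ∧ FixD (c ^ n) y z := by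
      intro z hz hzy
      by_cases h : ∀ g : U, Loop b V y g → FixD g y z → g = 1
      · left
        have h3 := low hL hF b V y hS hy {z} (by simpa using hz)
          (fun w hw => by rw [Finset.mem_singleton.1 hw]; exact ⟨hzy, h⟩)
          fun w hw w' hw' _ _ _ => by
            rw [Finset.mem_singleton.1 hw, Finset.mem_singleton.1 hw']
        rw [Finset.card_singleton] at h3
        unfold jj
        omega
      · right
        push Not at h
        obtain ⟨g, hg, hg1, hg2⟩ := h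
        obtain ⟨n, rfl⟩ := Subgroup.mem_zpowers_iff.1 (hc g hg)
        exact ⟨n, hg2, hg1⟩
    rcases key p hp ht.1 with h | ⟨n1, a1, f1⟩
    · exact h
    rcases key q hq ht.2.1 with h | ⟨n2, a2, f2⟩
    · exact h
    rcases key r hr ht.2.2.1 with h | ⟨n3, a3, f3⟩
    · exact h
    have nz : ∀ n : ℤ, c ^ n ≠ 1 → n ≠ 0 := fun n h h0 => h (by rw [h0, zpow_zero])
    have g1 := fix_zpow ht.1 f1 (n2 * n3)
    have g2 := fix_zpow ht.2.1 f2 (n1 * n3)
    have g3 := fix_zpow ht.2.2.1 f3 (n1 * n2)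
    rw [← zpow_mul] at g1 g2 g3
    rw [show n2 * (n1 * n3) = n1 * (n2 * n3) by ring] at g2
    rw [show n3 * (n1 * n2) = n1 * (n2 * n3) by ring] at g3
    have h := (hF U).2.2 c _ (mul_ne_zero (nz _ a1) (mul_ne_zero (nz _ a2) (nz _ a3)))
      (hS.v3 _ y p q r ht g1 g2 g3)
    exact absurd (by rw [h, one_zpow]) a1
  · have hup := hU U A X b V y 0 hy (dual_zero _)
    have h0 : ∀ g, Loop b V y g → g = 1 := fun g hg => by
      have hg' : g ∈ loops b V y hy := hg
      rw [← hcl', Finset.card_eq_zero.1 (Nat.lt_one_iff.1 hF1), Finset.coe_empty,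
        Subgroup.closure_empty] at hg'
      exact hg'
    obtain ⟨t1, t2, t3, t4, t5, t6⟩ := ht
    have ne : ∀ {s t : X}, s ≠ y → Btw s y t → s ≠ t := fun hs h e => by
      rw [← e] at h
      exact hs h.eq_of_self.symm
    have hc : ({p, q, r} : Finset X).card = 3 :=
      Finset.card_eq_three.2 ⟨p, q, r, ne t1 t4, ne t1 t6, ne t2 t5, rfl⟩
    have h3 := low hL hF b V y hS hy {p, q, r}
      (fun z hz => by
        simp only [Finset.mem_insert, Finset.mem_singleton] at hz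
        rcases hz with rfl | rfl | rfl <;> assumption)
      (fun z hz => ⟨by
        simp only [Finset.mem_insert, Finset.mem_singleton] at hz
        rcases hz with rfl | rfl | rfl <;> assumption, fun g hg _ => h0 g hg⟩)
      fun z hz w hw g hg h => by
        rw [h0 g hg, one_smul, mem_dir] at h
        have s4 := t4.symm
        have s5 := t5.symm
        have s6 := t6.symm
        simp only [Finset.mem_insert, Finset.mem_singleton] at hz hw
        rcases hz with rfl | rfl | rfl <;> rcases hw with rfl | rfl | rfl <;>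
          first | rfl | exact absurd (by assumption) h
    rw [hc] at h3
    unfold jj
    omega

end RLoc

theorem rowLoc (hL : StmtLow) (hU : StmtUp) (hF : StmtFree) : StmtLoc := by
  intro U A X _ _ _ _ _ _ b V y hS hy
  refine ⟨fun ⟨p, hp, q, hq, r, hr, ht⟩ => RLoc.one hL hU hF b V y hS hy hp hq hr ht,
    RLoc.two hL hU hF b V y hS hy, fun T hT h1 h2 => ?_⟩
  have h3 := RLoc.low hL hF b V y hS hy T hT (fun z hz => ⟨(h1 z hz).1, fun g _ => (h1 z hz).2 g⟩)
    fun z hz w hw g hg => h2 z hz w hw g hg.2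
  have h4 := hU U A X b V y 0 hy (RLoc.dual_zero _)
  unfold jj
  omega

end Pool.Agent.MP_3ce0a0_al.Q2T6I
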