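import Pool.Agent.MP_3ce0a0_al.Q2T6I.Spec

/-!
Row Low: the lower bound for the Euler characteristic, through the universal cocycle.
-/

set_option autoImplicit false

open scoped Classical Pointwise

namespace Pool.Agent.MP_3ce0a0_al.Q2T6I

namespace RLow

variable {U A Y : Type} [Group U] [MulAction U Y]

theorem basis_ind (b : FreeGroupBasis A U) (S : Subgroup U) (h : ∀ a, b a ∈ S) (g : U) : g ∈ S := by
  obtain ⟨w, rfl⟩ := b.repr.symm.surjective g
  induction w using FreeGroup.induction_on with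
  | C1 => rw [map_one]; exact S.one_mem
  | of a => exact h a
  | inv_of a ih => rw [map_inv]; exact S.inv_mem ih
  | mul x y hx hy => rw [map_mul]; exact S.mul_mem hx hy

/-- The skew permutation of a generator. -/
def skew {M : Type} [AddCommGroup M] (u : U) (c : Y → M) : Equiv.Perm (Y × M) where
  toFun := fun p => (u • p.1, p.2 + c p.1)
  invFun := fun p => (u⁻¹ • p.1, p.2 - c (u⁻¹ • p.1))
  left_inv := fun p => by simp
  right_inv := fun p => by simp

theorem cocycle (b : FreeGroupBasis A U) {M : Type} [AddCommGroup M] (c : A → Y → M) :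
    ∃ D : U → Y → M, (∀ g h y, D (g * h) y = D g (h • y) + D h y) ∧ ∀ a y, D (b a) y = c a y := by
  let ρ : U →* Equiv.Perm (Y × M) := b.lift fun a => skew (b a) (c a)
  have hρ : ∀ a, ρ (b a) = skew (b a) (c a) := fun a =>
    congrFun (b.lift.symm_apply_apply fun a => skew (b a) (c a)) a
  let S : Subgroup U :=
    { carrier := {g | ∀ y, ∃ m, ∀ t, ρ g (y, t) = (g • y, t + m)}
      one_mem' := fun y => ⟨0, fun t => by simp⟩
      mul_mem' := fun {g h} hg hh y => by
        obtain ⟨m, hm⟩ := hh y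
        obtain ⟨m', hm'⟩ := hg (h • y)
        exact ⟨m + m', fun t => by
          rw [map_mul, Equiv.Perm.mul_apply, hm, hm', mul_smul, add_assoc]⟩
      inv_mem' := fun {g} hg y => by
        obtain ⟨m, hm⟩ := hg (g⁻¹ • y)
        refine ⟨-m, fun t => ?_⟩
        rw [map_inv, Equiv.Perm.inv_eq_iff_eq, hm, smul_inv_smul, neg_add_cancel_right] }
  have hS : ∀ g y, ∃ m, ∀ t, ρ g (y, t) = (g • y, t + m) := fun g =>
    basis_ind b S (fun a y => ⟨c a y, fun t => by rw [hρ]; rfl⟩) g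
  choose D hD using hS
  refine ⟨D, fun g h y => ?_, fun a y => ?_⟩
  · have h1 := hD (g * h) y 0
    rw [map_mul, Equiv.Perm.mul_apply, hD, hD] at h1
    have h2 := congrArg Prod.snd h1
    simp only [zero_add] at h2
    rw [← h2, add_comm]
  · have h1 := hD (b a) y 0
    rw [hρ] at h1
    have h2 := congrArg Prod.snd h1
    simpa [skew] using h2.symm

theorem reps (e : A → U) (P T : Finset Y) (hT : T ⊆ P)
    (h : ∀ y ∈ T, ∀ z ∈ T, ∀ g, Adm e P y g → g • y = z → y = z) :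
    ∃ β : Y → Y, (∀ p ∈ P, β p ∈ P ∧ ∃ g, Adm e P (β p) g ∧ g • β p = p) ∧
      (∀ p ∈ P, ∀ g, Adm e P p g → β (g • p) = β p) ∧ ∀ t ∈ T, β t = t := by
  let J : Y → Y → Prop := fun p q => ∃ g, Adm e P p g ∧ g • p = q
  have Jr : ∀ p, J p p := fun p => ⟨1, Adm.one, one_smul _ _⟩
  have Js : ∀ p ∈ P, ∀ q, J p q → J q p := by
    rintro p hp _ ⟨g, hg, rfl⟩
    exact ⟨g⁻¹, hg.inv hp, inv_smul_smul _ _⟩
  have Jt : ∀ p q r, J p q → J q r → J p r := by
    rintro p _ _ ⟨g, hg, rfl⟩ ⟨k, hk, rfl⟩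
    exact ⟨k * g, hg.mul hk, mul_smul _ _ _⟩
  let C : Y → Set Y := fun p => {q | q ∈ P ∧ J q p}
  have hch : ∀ S : Set Y, ∃ f : Y → Y, ∀ p, (S.Nonempty → f p ∈ S) ∧
      ((∃ t ∈ T, t ∈ S) → f p ∈ T) ∧ (S.Nonempty → ∀ q, f q = f p) := by
    intro S
    by_cases h1 : ∃ t ∈ T, t ∈ S
    · obtain ⟨t, ht, hs⟩ := h1
      exact ⟨fun _ => t, fun _ => ⟨fun _ => hs, fun _ => ht, fun _ _ => rfl⟩⟩
    · by_cases h2 : S.Nonempty
      · obtain ⟨s, hs⟩ := h2
        exact ⟨fun _ => s, fun _ => ⟨fun _ => hs, fun h3 => absurd h3 h1, fun _ _ => rfl⟩⟩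
      · exact ⟨id, fun _ => ⟨fun h3 => absurd h3 h2, fun h3 => absurd h3 h1,
          fun h3 => absurd h3 h2⟩⟩
  choose f hf using hch
  have hne : ∀ p ∈ P, (C p).Nonempty := fun p hp => ⟨p, hp, Jr p⟩
  refine ⟨fun p => f (C p) p, fun p hp => (hf (C p) p).1 (hne p hp), fun p hp g hg => ?_,
    fun t ht => ?_⟩
  · have hj : J p (g • p) := ⟨g, hg, rfl⟩
    have hC : C (g • p) = C p := Set.ext fun q =>
      ⟨fun hq => ⟨hq.1, Jt _ _ _ hq.2 (Js p hp _ hj)⟩, fun hq => ⟨hq.1, Jt _ _ _ hq.2 hj⟩⟩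
    show f (C (g • p)) (g • p) = f (C p) p
    rw [hC]
    exact (hf (C p) p).2.2 (hne p hp) _
  · obtain ⟨-, g, hg, hg'⟩ := (hf (C t) t).1 (hne t (hT ht))
    exact h _ ((hf (C t) t).2.1 ⟨t, ht, hT ht, Jr t⟩) t ht g hg hg'

end RLow

open RLow in
/-- Row Low. -/
theorem rowLow : StmtLow := by
  intro U A Y _ _ _ b P T hT hcyc htriv hsep
  obtain ⟨β, hβ, hβg, hβT⟩ := reps b P T hT hsep
  let E : Finset (A × Y) := (Finset.univ ×ˢ P).filter fun q => b q.1 • q.2 ∈ P
  have hE : (E.card : ℤ) = ∑ a, ((P.filter fun p => b a • p ∈ P).card : ℤ) := by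
    have h1 : E.card = ∑ a, (P.filter fun p => b a • p ∈ P).card := by
      simp only [E, Finset.card_filter]
      rw [Finset.sum_product]
    exact_mod_cast h1
  obtain ⟨D, hD, hDb⟩ := cocycle (Y := Y) (M := E → ℚ) b fun a y =>
    if h : (a, y) ∈ E then Pi.single ⟨(a, y), h⟩ 1 else 0
  have hD1 : ∀ y, D 1 y = 0 := fun y => by
    have h1 := hD 1 1 y
    rw [one_mul, one_smul] at h1
    exact left_eq_add.mp h1
  have hg : ∀ p, ∃ g, p ∈ P → Adm b P (β p) g ∧ g • β p = p := fun p => by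
    by_cases hp : p ∈ P
    · obtain ⟨g, h⟩ := (hβ p hp).2
      exact ⟨g, fun _ => h⟩
    · exact ⟨1, fun h => absurd h hp⟩
  choose g hg using hg
  have hc : ∀ p, ∃ c, p ∈ P → Loop b P p c ∧ ∀ k, Loop b P p k → k ∈ Subgroup.zpowers c :=
    fun p => by
      by_cases hp : p ∈ P
      · obtain ⟨c, h⟩ := hcyc p hp
        exact ⟨c, fun _ => h⟩
      · exact ⟨1, fun h => absurd h hp⟩
  choose c hc using hc
  let v : (P \ T : Finset Y) → (E → ℚ) := fun p =>
    if β p = p then D (c p) p else D (g p) (β p)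
  let W : Submodule ℚ (E → ℚ) := Submodule.span ℚ (Set.range v)
  have hloop : ∀ r ∈ P, β r = r → ∀ k, Loop b P r k → D k r ∈ W := by
    intro r hr hrr k hk
    by_cases hrT : r ∈ T
    · rw [htriv r hrT k hk, hD1]
      exact W.zero_mem
    · have h1 : D (c r) r ∈ W := by
        have h2 : v ⟨r, Finset.mem_sdiff.2 ⟨hr, hrT⟩⟩ ∈ W := Submodule.subset_span ⟨_, rfl⟩
        simpa only [v, hrr, if_true] using h2
      let S : Subgroup U :=
        { carrier := {k | k • r = r ∧ D k r ∈ W}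
          one_mem' := ⟨one_smul _ _, by rw [hD1]; exact W.zero_mem⟩
          mul_mem' := fun {x y} hx hy => ⟨by rw [mul_smul, hy.1, hx.1], by
            rw [hD, hy.1]; exact W.add_mem hx.2 hy.2⟩
          inv_mem' := fun {x} hx => ⟨by rw [inv_smul_eq_iff, hx.1], by
            have h3 := hD x⁻¹ x r
            rw [inv_mul_cancel, hD1, hx.1] at h3
            rw [eq_neg_of_add_eq_zero_left h3.symm]
            exact W.neg_mem hx.2⟩ }
      have h4 : Subgroup.zpowers (c r) ≤ S := (Subgroup.zpowers_le).2 ⟨(hc r hr).1.2, h1⟩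
      exact (h4 ((hc r hr).2 k hk)).2
  have hββ : ∀ p ∈ P, β (β p) = β p := fun p hp => by
    have h1 := hβg (β p) (hβ p hp).1 (g p) (hg p hp).1
    rw [(hg p hp).2] at h1
    exact h1.symm
  have hpath : ∀ p ∈ P, D (g p) (β p) ∈ W := by
    intro p hp
    by_cases hpp : β p = p
    · have h1 := hg p hp
      rw [hpp] at h1 ⊢
      exact hloop p hp hpp _ h1
    · have hpT : p ∉ T := fun h => hpp (hβT p h)
      have h2 : v ⟨p, Finset.mem_sdiff.2 ⟨hp, hpT⟩⟩ ∈ W := Submodule.subset_span ⟨_, rfl⟩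
      simpa only [v, hpp, if_false] using h2
  have hsing : ∀ q : E, (Pi.single q 1 : E → ℚ) ∈ W := by
    rintro ⟨⟨a, p⟩, hq⟩
    have hq' := Finset.mem_filter.1 hq
    have hp : p ∈ P := (Finset.mem_product.1 hq'.1).2
    have hap : b a • p ∈ P := hq'.2
    have h1 : Adm b P p (b a * 1) := Adm.fwd 1 a Adm.one (by rwa [mul_one])
    rw [mul_one] at h1
    have h2 : β (b a • p) = β p := hβg p hp _ h1
    have h3 : Adm b P (β p) (b a * g p) := (hg p hp).1.mul (by rwa [(hg p hp).2])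
    have h4 := hg _ hap
    rw [h2] at h4
    have h5 : Loop b P (β p) ((g (b a • p))⁻¹ * (b a * g p)) := by
      have h6 : (b a * g p) • β p = g (b a • p) • β p := by rw [mul_smul, (hg p hp).2, h4.2]
      refine ⟨h3.mul ?_, ?_⟩
      · rw [h6]
        exact h4.1.inv (hβ p hp).1
      · rw [mul_smul, h6, inv_smul_smul]
    have h7 := hD (g (b a • p)) ((g (b a • p))⁻¹ * (b a * g p)) (β p)
    rw [mul_inv_cancel_left, h5.2, hD, (hg p hp).2, hDb, dif_pos hq] at h7
    rw [eq_sub_of_add_eq h7]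
    have h8 := hpath _ hap
    rw [h2] at h8
    exact W.sub_mem (W.add_mem h8 (hloop _ (hβ p hp).1 (hββ p hp) _ h5)) (hpath p hp)
  have htop : W = ⊤ := by
    refine eq_top_iff.2 fun x _ => ?_
    rw [pi_eq_sum_univ' x]
    exact W.sum_mem fun q _ => W.smul_mem _ (hsing q)
  have hfin : Module.finrank ℚ (E → ℚ) ≤ Fintype.card (P \ T : Finset Y) :=
    finrank_le_of_span_eq_top htop
  rw [Module.finrank_fintype_fun_eq_card, Fintype.card_coe, Fintype.card_coe,
    Finset.card_sdiff_of_subset hT] at hfin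
  have hle := Finset.card_le_card hT
  unfold chi
  rw [← hE]
  omega

end Pool.Agent.MP_3ce0a0_al.Q2T6I
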