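import Pool.Agent.MP_3ce0a0_al.Q2T6I.Spec

/-! Few components, each of small index. -/

set_option autoImplicit false

open scoped Classical Pointwise

namespace Pool.Agent.MP_3ce0a0_al.Q2T6I

open Q2T1

namespace RMain

variable {U A Y : Type} [Group U] [MulAction U Y] {e : A → U} {V : Finset Y} {p y : Y}

theorem self_mem (hy : y ∈ V) : y ∈ comp e V y := mem_comp.2 ⟨hy, 1, Adm.one, one_smul _ _⟩

theorem comp_sub (h : p ∈ comp e V y) : comp e V p ⊆ comp e V y := fun q hq => by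
  obtain ⟨_, g, hg, rfl⟩ := mem_comp.1 h
  obtain ⟨hq, g', hg', rfl⟩ := mem_comp.1 hq
  exact mem_comp.2 ⟨hq, g' * g, hg.mul hg', mul_smul _ _ _⟩

theorem comp_symm (hy : y ∈ V) (h : p ∈ comp e V y) : y ∈ comp e V p := by
  obtain ⟨_, g, hg, rfl⟩ := mem_comp.1 h
  exact mem_comp.2 ⟨hy, g⁻¹, hg.inv hy, inv_smul_smul _ _⟩

theorem comp_eq (hy : y ∈ V) (h : p ∈ comp e V y) : comp e V p = comp e V y :=
  Finset.Subset.antisymm (comp_sub h) (comp_sub (comp_symm hy h))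

theorem mem_iff (hy : y ∈ V) : p ∈ comp e V y ↔ p ∈ V ∧ comp e V p = comp e V y :=
  ⟨fun h => ⟨(mem_comp.1 h).1, comp_eq hy h⟩, fun h => h.2 ▸ self_mem h.1⟩

theorem comp_step (hp : p ∈ V) (a : A) (h : e a • p ∈ V) : comp e V (e a • p) = comp e V p :=
  comp_eq hp (mem_comp.2 ⟨h, e a * 1, Adm.fwd 1 a Adm.one (by rwa [mul_one]), by rw [mul_one]⟩)

theorem arith {I : Type} (J : Finset I) (j : I → ℤ) (i₀ : I) (h0 : i₀ ∈ J) (k : ℕ)
    (hs : ∑ i ∈ J, j i ≤ 2 * (k : ℤ) - 2) (h1 : -2 ≤ j i₀) (h2 : ∀ i ∈ J, i ≠ i₀ → 1 ≤ j i) :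
    (∀ i ∈ J, j i ≤ 2 * (k : ℤ)) ∧ J.card ≤ 2 * k + 1 := by
  rw [← Finset.add_sum_erase J j h0] at hs
  have h3 : ∀ i ∈ J.erase i₀, 1 ≤ j i := fun i hi =>
    h2 i (Finset.mem_of_mem_erase hi) (Finset.ne_of_mem_erase hi)
  have h4 : ∀ i ∈ J.erase i₀, 0 ≤ j i := fun i hi => zero_le_one.trans (h3 i hi)
  refine ⟨fun i hi => ?_, ?_⟩
  · by_cases h : i = i₀
    · have := Finset.sum_nonneg h4
      rw [h]
      omega
    · have := Finset.single_le_sum h4 (Finset.mem_erase.2 ⟨h, hi⟩)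
      omega
  · have h5 : (J.erase i₀).card • (1 : ℤ) ≤ ∑ x ∈ J.erase i₀, j x :=
      Finset.card_nsmul_le_sum _ _ _ h3
    have h6 := Finset.card_erase_add_one h0
    rw [nsmul_eq_mul, mul_one] at h5
    omega

end RMain

open RMain

theorem rowMain (hS : StmtSum) (hG : StmtGlob) (hL : StmtLoc) : StmtMain := by
  intro U A X _ _ _ _ _ _ b x₀ V hsm hg
  have hJ : ∀ p ∈ V, comp b V p ∈ V.image (comp b V) := fun p hp => Finset.mem_image_of_mem _ hp
  have s1 : chi b V = ∑ i ∈ V.image (comp b V), chi b i := by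
    rw [hS U A X (Finset X) b V (comp b V) _ hJ fun p hp a h => comp_step hp a h]
    refine Finset.sum_congr rfl fun i hi => congrArg (chi b) (Finset.ext fun p => ?_)
    obtain ⟨y, hy, rfl⟩ := Finset.mem_image.1 hi
    exact (@Finset.mem_filter _ _ (_) _ _).trans (mem_iff hy).symm
  have hd : ∀ d ∈ dirs V V, d.1 ∈ V := fun d h => by
    obtain ⟨x, hx, _, _, _, rfl⟩ := mem_dirs.1 h
    exact hx
  have s2 : chi b (dirs V V) = ∑ i ∈ V.image (comp b V), chi b (dirs i V) := by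
    rw [hS U A (X × Set X) (Finset X) b (dirs V V) (fun d => comp b V d.1) _
      (fun d h => hJ _ (hd d h)) fun d h a h' => comp_step (hd d h) a (hd _ h')]
    refine Finset.sum_congr rfl fun i hi => congrArg (chi b) (Finset.ext fun d => ?_)
    obtain ⟨y, hy, rfl⟩ := Finset.mem_image.1 hi
    refine (@Finset.mem_filter _ _ (_) _ _).trans ?_
    rw [mem_dirs, mem_dirs]
    constructor
    · rintro ⟨⟨x, hx, z, hz, hn, rfl⟩, h⟩
      exact ⟨x, (mem_iff hy).2 ⟨hx, h⟩, z, hz, hn, rfl⟩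
    · rintro ⟨x, hx, z, hz, hn, rfl⟩
      exact ⟨⟨x, ((mem_iff hy).1 hx).1, z, hz, hn, rfl⟩, ((mem_iff hy).1 hx).2⟩
  have s3 := hG U A X b x₀ V hg.base hg.gen hg.med
  rw [s1, s2, Finset.mul_sum, ← Finset.sum_sub_distrib] at s3
  have l0 : Dual (Loop b V x₀) 0 :=
    ⟨fun i => i.elim0, fun i => i.elim0, fun i => i.elim0, fun i => i.elim0, fun i => i.elim0⟩
  have l1 := (hL U A X b V x₀ hsm hg.base).2.1 0 l0
  obtain ⟨a1, a2⟩ := arith (V.image (comp b V)) (fun i => chi b (dirs i V) - 2 * chi b i)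
    (comp b V x₀) (hJ _ hg.base) (Fintype.card A) s3 (by simpa [jj] using l1) (fun i hi hn => by
      obtain ⟨y, hy, rfl⟩ := Finset.mem_image.1 hi
      rcases hg.dich y hy with h | h
      · exact absurd (comp_eq hg.base (mem_comp.2 ⟨hy, h⟩)) hn
      · exact (hL U A X b V y hsm hy).1 h)
  refine ⟨fun y hy => a1 _ (hJ y hy), ?_⟩
  have hc : ∀ i : V.image (comp b V), ∃ y ∈ V, comp b V y = i := fun i => Finset.mem_image.1 i.2
  choose c c1 c2 using hc
  refine ⟨Finset.univ.image c, fun r hr => ?_, ?_, fun v hv => ?_⟩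
  · obtain ⟨i, _, rfl⟩ := Finset.mem_image.1 hr
    exact c1 i
  · refine Finset.card_image_le.trans ?_
    rwa [Finset.card_univ, Fintype.card_coe]
  · refine ⟨c ⟨_, hJ v hv⟩, Finset.mem_image_of_mem _ (Finset.mem_univ _), ?_⟩
    exact (mem_comp.1 ((mem_iff (c1 _)).2 ⟨hv, (c2 ⟨_, hJ v hv⟩).symm⟩)).2

end Pool.Agent.MP_3ce0a0_al.Q2T6I
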