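import Pool.Agent.MP_3ce0a0_al.Q2T6I.Spec

/-!
Row Up: the upper bound for the Euler characteristic of a component.
-/

set_option autoImplicit false

open scoped Classical Pointwise

namespace Pool.Agent.MP_3ce0a0_al.Q2T6I

namespace RUp

variable {U A Y : Type} [Group U] [MulAction U Y] {e : A → U} {Q : Finset Y} {y : Y}

theorem loop_of {g h : U} (hy : y ∈ Q) (hg : Adm e Q y g) (hh : Adm e Q y h)
    (he : h • y = g • y) : Loop e Q y (h⁻¹ * g) :=
  ⟨hg.mul (by rw [← he]; exact hh.inv hy), by rw [mul_smul, ← he, inv_smul_smul]⟩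

theorem mem_of {g : U} (hy : y ∈ Q) (hg : Adm e Q y g) : g • y ∈ comp e Q y :=
  mem_comp.2 ⟨hg.mem hy, g, hg, rfl⟩

theorem edge {G : Y → U} (hG : ∀ p ∈ comp e Q y, Adm e Q y (G p) ∧ G p • y = p) (hy : y ∈ Q)
    {a : A} {p : Y} (hp : p ∈ comp e Q y) (hq : e a • p ∈ comp e Q y) :
    Loop e Q y ((G (e a • p))⁻¹ * (e a * G p)) := by
  refine loop_of hy (Adm.fwd _ a (hG p hp).1 ?_) (hG _ hq).1 ?_
  · rw [mul_smul, (hG p hp).2]; exact (mem_comp.1 hq).1
  · rw [mul_smul, (hG p hp).2, (hG _ hq).2]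

theorem key {G : Y → U} (hG : ∀ p ∈ comp e Q y, Adm e Q y (G p) ∧ G p • y = p) (hy : y ∈ Q)
    (F : Y → ℚ) (L : U → ℚ)
    (hL : ∀ g h, Loop e Q y g → Loop e Q y h → L (g * h) = L g + L h)
    (hE : ∀ a, ∀ p ∈ comp e Q y, e a • p ∈ comp e Q y →
      F (e a • p) - F p + L ((G (e a • p))⁻¹ * (e a * G p)) = 0) {g : U} (hg : Adm e Q y g) :
    F (g • y) + L ((G (g • y))⁻¹ * g) = F y + L (G y)⁻¹ := by
  have hc : ∀ g, Adm e Q y g → Loop e Q y ((G (g • y))⁻¹ * g) := fun g hg =>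
    loop_of hy hg (hG _ (mem_of hy hg)).1 (hG _ (mem_of hy hg)).2
  induction hg with
  | one => rw [one_smul, mul_one]
  | fwd g a h1 h2 ih =>
    have hp := mem_of hy h1
    have hq : e a • g • y ∈ comp e Q y := by
      rw [← mul_smul]; exact mem_of hy (Adm.fwd g a h1 h2)
    have h3 := hL _ _ (edge hG hy hp hq) (hc g h1)
    have h4 := hE a _ hp hq
    rw [show (G (e a • g • y))⁻¹ * (e a * G (g • y)) * ((G (g • y))⁻¹ * g) =
      (G (e a • g • y))⁻¹ * (e a * g) by group] at h3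
    rw [mul_smul]
    linarith
  | bwd g a h1 h2 ih =>
    have h0 := Adm.bwd g a h1 h2
    have hp := mem_of hy h0
    have he : e a • ((e a)⁻¹ * g) • y = g • y := by rw [mul_smul, smul_inv_smul]
    have hq : e a • ((e a)⁻¹ * g) • y ∈ comp e Q y := by rw [he]; exact mem_of hy h1
    have h3 := hL _ _ (edge hG hy hp hq) (hc _ h0)
    have h4 := hE a _ hp hq
    rw [he] at h3 h4
    rw [show (G (g • y))⁻¹ * (e a * G (((e a)⁻¹ * g) • y)) *
      ((G (((e a)⁻¹ * g) • y))⁻¹ * ((e a)⁻¹ * g)) = (G (g • y))⁻¹ * g by group] at h3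
    linarith

end RUp

theorem rowUp : StmtUp := by
  intro U A Y _ _ _ e Q y r hy ⟨s, l, hs, hl, hd⟩
  have h0 : ∀ p : Y, ∃ g : U, p ∈ comp e Q y → Adm e Q y g ∧ g • y = p := fun p => by
    by_cases hp : p ∈ comp e Q y
    · obtain ⟨g, hg⟩ := (mem_comp.1 hp).2
      exact ⟨g, fun _ => hg⟩
    · exact ⟨1, fun h => absurd h hp⟩
  choose G hG using h0
  set P := comp e Q y with hP
  have hyP : y ∈ P := mem_comp.2 ⟨hy, 1, Adm.one, one_smul _ _⟩
  let E : Type := Σ a : A, {p // p ∈ P.filter fun p => e a • p ∈ P}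
  let Φ : ((P → ℚ) × (Fin r → ℚ)) →ₗ[ℚ] ((E → ℚ) × ℚ) :=
    { toFun := fun v => (fun d => v.1 ⟨e d.1 • d.2.1, (Finset.mem_filter.1 d.2.2).2⟩ -
          v.1 ⟨d.2.1, (Finset.mem_filter.1 d.2.2).1⟩ +
          ∑ i, v.2 i * l i ((G (e d.1 • d.2.1))⁻¹ * (e d.1 * G d.2.1)), v.1 ⟨y, hyP⟩)
      map_add' := fun v w => by
        refine Prod.ext (funext fun d => ?_) rfl
        simp only [Prod.fst_add, Prod.snd_add, Pi.add_apply, add_mul, Finset.sum_add_distrib]
        ring
      map_smul' := fun c v => by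
        refine Prod.ext (funext fun d => ?_) rfl
        simp only [Prod.smul_fst, Prod.smul_snd, Pi.smul_apply, smul_eq_mul, RingHom.id_apply,
          mul_assoc, ← Finset.mul_sum]
        ring }
  have hinj : Function.Injective Φ := by
    rw [injective_iff_map_eq_zero]
    rintro ⟨f, t⟩ hv
    let F : Y → ℚ := fun p => if h : p ∈ P then f ⟨p, h⟩ else 0
    have hF : ∀ p (h : p ∈ P), F p = f ⟨p, h⟩ := fun p h => dif_pos h
    let L : U → ℚ := fun g => ∑ i, t i * l i g
    have hL : ∀ g h, Loop e Q y g → Loop e Q y h → L (g * h) = L g + L h := fun g h hg hh => by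
      simp only [L, hl _ g h hg hh, mul_add, Finset.sum_add_distrib]
    have hE : ∀ a, ∀ p ∈ P, e a • p ∈ P →
        F (e a • p) - F p + L ((G (e a • p))⁻¹ * (e a * G p)) = 0 := fun a p hp hq => by
      rw [hF _ hp, hF _ hq]
      exact congrFun (congrArg Prod.fst hv) ⟨a, p, Finset.mem_filter.2 ⟨hp, hq⟩⟩
    have hy0 : F y = 0 := by rw [hF _ hyP]; exact congrArg Prod.snd hv
    have hGy : Loop e Q y (G y)⁻¹ := by
      have h := RUp.loop_of hy Adm.one (hG y hyP).1 (by rw [(hG y hyP).2, one_smul])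
      rwa [mul_one] at h
    have ht : t = 0 := funext fun j => by
      have h1 := RUp.key hG hy F L hL hE (hs j).1
      rw [(hs j).2, hL _ _ hGy (hs j)] at h1
      have h2 : L (s j) = t j := by simp [L, hd]
      rw [Pi.zero_apply]
      linarith
    have hL0 : ∀ g, L g = 0 := fun g => by simp [L, ht]
    refine Prod.ext (funext fun p => ?_) ht
    have h1 := RUp.key hG hy F L hL hE (hG p.1 p.2).1
    rw [(hG p.1 p.2).2, hL0, hL0, hy0, hF _ p.2] at h1
    simpa using h1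
  have h1 := LinearMap.finrank_le_finrank_of_injective hinj
  rw [Module.finrank_prod, Module.finrank_prod, Module.finrank_fintype_fun_eq_card,
    Module.finrank_fintype_fun_eq_card, Module.finrank_fintype_fun_eq_card, Module.finrank_self,
    Fintype.card_coe, Fintype.card_fin, Fintype.card_sigma] at h1
  simp only [Fintype.card_coe] at h1
  have h2 : (P.card : ℤ) + r ≤ ∑ a, ((P.filter fun p => e a • p ∈ P).card : ℤ) + 1 := by
    exact_mod_cast h1
  unfold chi
  linarith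

end Pool.Agent.MP_3ce0a0_al.Q2T6I
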