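import Pool.Agent.MP_3ce0a0_al.Q2T6I.Asm0
import Pool.Agent.MP_3ce0a0_al.Q2T6I.RBig
import Pool.Agent.MP_3ce0a0_al.Q2T6I.RCnt
import Pool.Agent.MP_3ce0a0_al.Q2T6I.RFree
import Pool.Agent.MP_3ce0a0_al.Q2T6I.RGlob
import Pool.Agent.MP_3ce0a0_al.Q2T6I.RLoc
import Pool.Agent.MP_3ce0a0_al.Q2T6I.RLow
import Pool.Agent.MP_3ce0a0_al.Q2T6I.RMain
import Pool.Agent.MP_3ce0a0_al.Q2T6I.RUp

/-!
The index lemma.
-/

set_option autoImplicit false

namespace Pool.Agent.MP_3ce0a0_al.Q2T6I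

open Q2T1

/-- The index lemma. -/
theorem ix : StmtIx :=
  ix_of_rows rowFree (rowLoc rowLow rowUp rowFree)
    (rowMain rowSum (rowGlob rowCnt) (rowLoc rowLow rowUp rowFree)) rowBig

/-- The index lemma for very small actions. -/
theorem ix_of_vs {G : Type} [Group G] {U : Subgroup G} {X : Type} [MetricSpace X] [MulAction G X]
    {A : Type} [Fintype A] (b : FreeGroupBasis A U) (h : Q2T5.VS U X) (x₀ : X) :
    Ix (fun a => b a) x₀ := by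
  have := h.tree
  obtain ⟨h1, h2, h3⟩ := sm_of_vs h
  exact ix U A X b x₀ h2 (h3 x₀)

/-- The index lemma in the ambient group. -/
theorem idx_of_vs {G : Type} [Group G] {U : Subgroup G} {X : Type} [MetricSpace X] [MulAction G X]
    {A : Type} [Fintype A] (b : FreeGroupBasis A U) (h : Q2T5.VS U X) :
    (∃ R : Set X, R.Finite ∧ ∀ x, ∃ g ∈ U, g • x ∈ R) ∧
    (∀ x : X, ∃ D : Set X, D.Finite ∧ ∀ y, y ≠ x →
      ¬ (∃ g ∈ U, g ≠ 1 ∧ g • x = x ∧ g • y ∈ dir x y) →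
        ∃ g ∈ U, g • x = x ∧ ∃ d ∈ D, g • y ∈ dir x d) ∧
    ∀ x : X, (U ⊓ MulAction.stabilizer G x).FG := by
  obtain ⟨x₀⟩ := h.ne
  have hx := ix_of_vs b h x₀
  refine ⟨?_, fun x => ?_, fun x => ?_⟩
  · obtain ⟨F, -, hF⟩ := hx.i1
    refine ⟨F, F.finite_toSet, fun x => ?_⟩
    obtain ⟨g, hg⟩ := hF x
    exact ⟨g, g.2, hg⟩
  · obtain ⟨F, -, hF⟩ := hx.i2 x
    refine ⟨F, F.finite_toSet, fun y hy hn => ?_⟩
    obtain ⟨g, hg, z, hz, -, hz'⟩ := hF y hy fun g hg => by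
      by_contra hne
      exact hn ⟨g, g.2, fun e => hne (Subtype.ext e), hg.1, hg.2⟩
    exact ⟨g, g.2, hg, z, hz, hz'⟩
  · obtain ⟨F, -, hF⟩ := hx.i4 x
    have h1 : U ⊓ MulAction.stabilizer G x = (MulAction.stabilizer U x).map U.subtype := by
      ext g
      constructor
      · exact fun hg => ⟨⟨g, hg.1⟩, hg.2, rfl⟩
      · rintro ⟨u, hu, rfl⟩
        exact ⟨u.2, hu⟩
    rw [h1, ← hF, MonoidHom.map_closure]
    exact (Subgroup.fg_iff _).2 ⟨_, rfl, F.finite_toSet.image _⟩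

end Pool.Agent.MP_3ce0a0_al.Q2T6I
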