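import Pool.Agent.MP_3ce0a0_al.Q2T6I.Spec
import Pool.Agent.MP_3ce0a0_al.Q2T1.Basic
import Pool.Agent.MP_3ce0a0_al.Q2T5.Spec

/-!
The index lemma from its rows, and the bridge from very small actions.
-/

set_option autoImplicit false

open scoped Classical Pointwise

namespace Pool.Agent.MP_3ce0a0_al.Q2T6I

open Q2T1

namespace Asm0

/-- Bounded antichains give a finite transversal. -/
theorem transv {Z : Type} (P : Z → Prop) (r : Z → Z → Prop) (hr : ∀ x, P x → r x x)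
    (hs : ∀ x y, P x → P y → r x y → r y x) (N : ℕ)
    (h : ∀ T : Finset Z, (∀ z ∈ T, P z) → (∀ z ∈ T, ∀ w ∈ T, r z w → z = w) → T.card ≤ N) :
    ∃ F : Finset Z, F.card ≤ N ∧ (∀ z ∈ F, P z) ∧ ∀ x, P x → ∃ z ∈ F, r x z := by
  let S : ℕ → Prop := fun n => ∃ T : Finset Z, (∀ z ∈ T, P z) ∧
    (∀ z ∈ T, ∀ w ∈ T, r z w → z = w) ∧ T.card = n
  have h0 : S 0 := ⟨∅, by simp, by simp, rfl⟩
  obtain ⟨T, h1, h2, h3⟩ : S (Nat.findGreatest S N) := Nat.findGreatest_spec (Nat.zero_le N) h0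
  refine ⟨T, h T h1 h2, h1, fun x hx => ?_⟩
  by_contra hn
  have hn' : ∀ z ∈ T, ¬ r x z := fun z hz hrz => hn ⟨z, hz, hrz⟩
  have hxT : x ∉ T := fun hxT => hn' x hxT (hr x hx)
  have h4 : ∀ z ∈ insert x T, P z := by
    intro z hz
    rcases Finset.mem_insert.1 hz with rfl | hz
    · exact hx
    · exact h1 z hz
  have h5 : ∀ z ∈ insert x T, ∀ w ∈ insert x T, r z w → z = w := by
    intro z hz w hw hzw
    rcases Finset.mem_insert.1 hz with e1 | hz'
    · rcases Finset.mem_insert.1 hw with e2 | hw'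
      · rw [e1, e2]
      · exact absurd (e1 ▸ hzw) (hn' w hw')
    · rcases Finset.mem_insert.1 hw with e2 | hw'
      · exact absurd (hs z x (h1 z hz') hx (e2 ▸ hzw)) (hn' z hz')
      · exact h2 z hz' w hw' hzw
  have h6 := h _ h4 h5
  have h7 : S (T.card + 1) := ⟨insert x T, h4, h5, Finset.card_insert_of_notMem hxT⟩
  rw [Finset.card_insert_of_notMem hxT] at h6
  have h8 := Nat.le_findGreatest h6 h7
  omega

theorem eqv {U A Y : Type} [Group U] [MulAction U Y] {e : A → U} {V : Finset Y} {r : Y} {g : U}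
    (hr : r ∈ V) (hg : Adm e V r g) :
    Relation.EqvGen (fun p q => p ∈ V ∧ q ∈ V ∧ ∃ a, q = e a • p) r (g • r) := by
  induction hg with
  | one => rw [one_smul]; exact Relation.EqvGen.refl _
  | fwd g a h1 h2 ih =>
    exact ih.trans _ _ _ (Relation.EqvGen.rel _ _ ⟨h1.mem hr, h2, a, mul_smul _ _ _⟩)
  | bwd g a h1 h2 ih =>
    exact ih.trans _ _ _ (Relation.EqvGen.rel _ _
      ⟨h2, h1.mem hr, a, by rw [smul_smul, mul_inv_cancel_left]⟩).symm

theorem fix_arc {U X : Type} [Group U] [MetricSpace X] [IsTree X] [MulAction U X]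
    [IsIsometricSMul U X] {g : U} {x y : X} (h : FixD g x y) :
    ∃ m, m ≠ x ∧ Btw x m y ∧ ∀ z, Btw x z m → g • z = z := by
  refine ⟨med x y (g • y), mem_dir_iff_med.1 h.2, med_btw12 _ _ _, fun z hz => ?_⟩
  have h1 : Btw x z y := hz.trans_left (med_btw12 _ _ _)
  have h2 : Btw x z (g • y) := hz.trans_left (med_btw13 _ _ _)
  have h3 : Btw x (g • z) (g • y) := by
    have h4 := BAct.btw g x z y h1
    rwa [h.1] at h4
  refine h3.eq_of_dist h2 ?_
  have h5 := dist_smul g x z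
  rwa [h.1] at h5

end Asm0

open Asm0

/-- The index lemma from its rows. -/
theorem ix_of_rows (hF : StmtFree) (hL : StmtLoc) (hM : StmtMain) (hB : StmtBig) : StmtIx := by
  intro U A X _ _ _ _ _ _ b x₀ hS hN
  have := b.isFreeGroup
  refine ⟨?_, fun x => ?_, fun x => ?_, fun F => ?_⟩
  · obtain ⟨F, h1, -, h2⟩ := transv (fun _ : X => True) (fun x y => ∃ g : U, g • x = y)
      (fun x _ => ⟨1, one_smul _ _⟩)
      (fun x y _ _ ⟨g, hg⟩ => ⟨g⁻¹, by rw [← hg, inv_smul_smul]⟩) (2 * Fintype.card A + 1) (by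
        intro T _ hT
        obtain ⟨V, hV, hTV, -⟩ := hB U A X b x₀ hN T ∅
        obtain ⟨R, -, hR, hR'⟩ := (hM U A X b x₀ V hS hV).2
        have h3 : ∀ v, ∃ r, v ∈ T → r ∈ R ∧ ∃ g : U, g • r = v := fun v => by
          by_cases hv : v ∈ T
          · obtain ⟨r, hr, g, -, hg⟩ := hR' v (hTV hv)
            exact ⟨r, fun _ => ⟨hr, g, hg⟩⟩
          · exact ⟨v, fun h => absurd h hv⟩
        choose f hf using h3
        refine (Finset.card_le_card_of_injOn f (fun v hv => (hf v hv).1) ?_).trans hR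
        intro v hv w hw hvw
        obtain ⟨g, hg⟩ := (hf v hv).2
        obtain ⟨k, hk⟩ := (hf w hw).2
        exact hT v hv w hw ⟨k * g⁻¹, by rw [← hg, mul_smul, inv_smul_smul, hvw, hk]⟩)
    refine ⟨F, h1, fun x => ?_⟩
    obtain ⟨z, hz, g, hg⟩ := h2 x trivial
    exact ⟨g, hg ▸ hz⟩
  · obtain ⟨F, h1, h3, h2⟩ := transv (fun z : X => z ≠ x ∧ ∀ g : U, FixD g x z → g = 1)
      (fun z w => ∃ g : U, g • x = x ∧ g • z ∈ dir x w)
      (fun z hz => ⟨1, one_smul _ _, by rw [one_smul]; exact self_mem_dir hz.1⟩)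
      (fun z w _ _ ⟨g, hg, hg'⟩ => ⟨g⁻¹, by rw [inv_smul_eq_iff, hg], fun h => hg' (by
        have h4 := BAct.btw g _ _ _ h
        rw [hg, smul_inv_smul] at h4
        exact h4.symm)⟩) (2 * Fintype.card A + 2) (by
        intro T hT hT'
        obtain ⟨V, hV, hTV, -⟩ := hB U A X b x₀ hN (insert x T) ∅
        have hx : x ∈ V := hTV (Finset.mem_insert_self _ _)
        have h4 := (hM U A X b x₀ V hS hV).1 x hx
        have h5 := (hL U A X b V x hS hx).2.2 T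
          ((Finset.subset_insert _ _).trans hTV) hT fun z hz w hw g hg hg' =>
            hT' z hz w hw ⟨g, hg, hg'⟩
        omega)
    refine ⟨F, h1, fun y hy hy' => ?_⟩
    obtain ⟨z, hz, g, hg, hg'⟩ := h2 y ⟨hy, hy'⟩
    exact ⟨g, hg, z, hz, (h3 z hz).1, hg'⟩
  · rcases (hF U).1 (MulAction.stabilizer U x) (Fintype.card A + 2) with ⟨s, l, h1, h2, h3⟩ |
      ⟨F, h1, h2⟩
    · obtain ⟨V, hV, hTV, hW⟩ := hB U A X b x₀ hN {x} (Finset.univ.image s)
      have hx : x ∈ V := hTV (Finset.mem_singleton_self _)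
      have h4 := (hM U A X b x₀ V hS hV).1 x hx
      have h5 := (hL U A X b V x hS hx).2.1 (Fintype.card A + 2)
        ⟨s, l, fun i => ⟨hW x (Finset.mem_singleton_self _) _
          (Finset.mem_image_of_mem s (Finset.mem_univ i)), h1 i⟩,
          fun i g k hg hk => h2 i g k hg.2 hk.2, h3⟩
      omega
    · exact ⟨F, by omega, h2⟩
  · obtain ⟨V, hV, hTV, -⟩ := hB U A X b x₀ hN F ∅
    obtain ⟨R, hRV, hR, hR'⟩ := (hM U A X b x₀ V hS hV).2
    refine ⟨V, hTV, hV.base, hV.gen, hV.med, R, hR, fun v hv => ?_⟩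
    obtain ⟨r, hr, g, hg, rfl⟩ := hR' v hv
    exact ⟨r, hr, eqv (hRV hr) hg⟩

/-- Very small actions satisfy the hypotheses of the count. -/
theorem sm_of_vs {G : Type} [Group G] {U : Subgroup G} {X : Type} [MetricSpace X] [MulAction G X]
    (h : Q2T5.VS U X) : BAct U X ∧ Sm U X ∧ ∀ x₀ : X, Mn U x₀ := by
  have := h.tree
  have : IsIsometricSMul U X := ⟨fun g => Isometry.of_dist_eq fun x y => h.isom g g.2 x y⟩
  refine ⟨inferInstance, ⟨fun g k x y _ hg hk => ?_, fun g x a b c ht ha hb hc => ?_⟩,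
    fun x₀ => ⟨h.br, fun x y hy => ?_⟩⟩
  · obtain ⟨m, hm, hm1, hm2⟩ := fix_arc hg
    obtain ⟨n, hn, hn1, hn2⟩ := fix_arc hk
    apply Subtype.ext
    rcases hm1.total hn1 with h1 | h1
    · exact h.v1 g g.2 k k.2 x m hm.symm hg.1 (hm2 m (btw_right _ _)) hk.1 (hn2 m h1)
    · exact h.v1 g g.2 k k.2 x n hn.symm hg.1 (hm2 n h1) hk.1 (hn2 n (btw_right _ _))
  · obtain ⟨a', ha0, ha1, ha2⟩ := fix_arc ha
    obtain ⟨b', hb0, hb1, hb2⟩ := fix_arc hb
    obtain ⟨c', hc0, hc1, hc2⟩ := fix_arc hc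
    have key : ∀ p q p' q' : X, p' ≠ x → q' ≠ x → Btw x p' p → Btw x q' q → Btw p x q →
        Btw p' x q' := fun p q p' q' h1 h2 h3 h4 h5 =>
      btw_of_mem_dir (h3.mem_dir' h1) fun h6 =>
        not_btw_of_mem_dir (self_mem_dir (h3.ne_of_ne_left h1))
          (by rw [← dir_eq_of_mem h6]; exact h4.mem_dir h2) h5
    by_contra hne
    exact h.v3 g g.2 (fun e => hne (Subtype.ext e)) x a' b' c'
      ⟨ha0, hb0, hc0, key _ _ _ _ ha0 hb0 ha1 hb1 ht.2.2.2.1,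
        key _ _ _ _ hb0 hc0 hb1 hc1 ht.2.2.2.2.1, key _ _ _ _ ha0 hc0 ha1 hc1 ht.2.2.2.2.2⟩
      (ha2 a' (btw_right _ _)) (hb2 b' (btw_right _ _)) (hc2 c' (btw_right _ _))
  · obtain ⟨g, hg, hg'⟩ := h.mini x y x₀ hy
    exact ⟨⟨g, hg⟩, hg'⟩

end Pool.Agent.MP_3ce0a0_al.Q2T6I
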