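import Pool.Agent.MP_3ce0a0_al.Q2T1.Defs

/-!
The index count for very small actions of a free group on a tree-space: working definitions and
the statements of the rows.
-/

set_option autoImplicit false

open scoped Classical Pointwise

namespace Pool.Agent.MP_3ce0a0_al.Q2T6I

open Q2T1

noncomputable section

section Graph

variable {U A Y : Type} [Group U] [MulAction U Y]

/-- `g` is read along a path that starts at `y` and stays in `Q`. -/
inductive Adm (e : A → U) (Q : Finset Y) (y : Y) : U → Prop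
  | one : Adm e Q y 1
  | fwd (g : U) (a : A) : Adm e Q y g → (e a * g) • y ∈ Q → Adm e Q y (e a * g)
  | bwd (g : U) (a : A) : Adm e Q y g → ((e a)⁻¹ * g) • y ∈ Q → Adm e Q y ((e a)⁻¹ * g)

/-- `g` is read along a loop at `y` in `Q`. -/
def Loop (e : A → U) (Q : Finset Y) (y : Y) (g : U) : Prop := Adm e Q y g ∧ g • y = y

/-- The component of `y` in `Q`. -/
def comp (e : A → U) (Q : Finset Y) (y : Y) : Finset Y :=
  Q.filter fun p => ∃ g, Adm e Q y g ∧ g • y = p

/-- The Euler characteristic of the graph induced on `P`. -/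
def chi [Fintype A] (e : A → U) (P : Finset Y) : ℤ :=
  (P.card : ℤ) - ∑ a, ((P.filter fun p => e a • p ∈ P).card : ℤ)

/-- `r` elements with the property `H`, and dual functions additive on such elements. -/
def Dual (H : U → Prop) (r : ℕ) : Prop :=
  ∃ (s : Fin r → U) (l : Fin r → U → ℚ), (∀ i, H (s i)) ∧
    (∀ i g h, H g → H h → l i (g * h) = l i g + l i h) ∧
    ∀ i j, l i (s j) = if i = j then 1 else 0

theorem Adm.mem {e : A → U} {Q : Finset Y} {y : Y} {g : U} (h : Adm e Q y g) (hy : y ∈ Q) :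
    g • y ∈ Q := by
  cases h with
  | one => rwa [one_smul]
  | fwd g a _ h => exact h
  | bwd g a _ h => exact h

theorem Adm.mul {e : A → U} {Q : Finset Y} {y : Y} {g h : U} (hg : Adm e Q y g)
    (hh : Adm e Q (g • y) h) : Adm e Q y (h * g) := by
  induction hh with
  | one => rwa [one_mul]
  | fwd h a _ h2 ih =>
    rw [mul_assoc]
    exact Adm.fwd _ a ih (by rwa [← mul_assoc, mul_smul])
  | bwd h a _ h2 ih =>
    rw [mul_assoc]
    exact Adm.bwd _ a ih (by rwa [← mul_assoc, mul_smul])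

theorem Adm.inv {e : A → U} {Q : Finset Y} {y : Y} {g : U} (hg : Adm e Q y g) (hy : y ∈ Q) :
    Adm e Q (g • y) g⁻¹ := by
  induction hg with
  | one => rw [inv_one]; exact Adm.one
  | fwd g a h1 _ ih =>
    have h3 : Adm e Q ((e a * g) • y) ((e a)⁻¹ * 1) :=
      Adm.bwd 1 a Adm.one (by
        rw [mul_one, smul_smul, inv_mul_cancel_left]; exact h1.mem hy)
    rw [mul_one] at h3
    rw [mul_inv_rev]
    exact h3.mul (by rwa [smul_smul, inv_mul_cancel_left])
  | bwd g a h1 _ ih =>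
    have h3 : Adm e Q (((e a)⁻¹ * g) • y) (e a * 1) :=
      Adm.fwd 1 a Adm.one (by
        rw [mul_one, smul_smul, mul_inv_cancel_left]; exact h1.mem hy)
    rw [mul_one] at h3
    rw [mul_inv_rev, inv_inv]
    exact h3.mul (by rwa [smul_smul, mul_inv_cancel_left])

/-- Paths are pushed forward by equivariant maps. -/
theorem Adm.map {Z : Type} [MulAction U Z] {e : A → U} {Q : Finset Y} {Q' : Finset Z} (f : Y → Z)
    (hf : ∀ (g : U) (p : Y), f (g • p) = g • f p) (hQ : ∀ p ∈ Q, f p ∈ Q') {y : Y} {g : U}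
    (hg : Adm e Q y g) : Adm e Q' (f y) g := by
  induction hg with
  | one => exact Adm.one
  | fwd g a _ h2 ih => exact Adm.fwd g a ih (by rw [← hf]; exact hQ _ h2)
  | bwd g a _ h2 ih => exact Adm.bwd g a ih (by rw [← hf]; exact hQ _ h2)

theorem Adm.mono {e : A → U} {Q Q' : Finset Y} (hQ : Q ⊆ Q') {y : Y} {g : U}
    (hg : Adm e Q y g) : Adm e Q' y g :=
  hg.map id (fun _ _ => rfl) fun _ hp => hQ hp

/-- The group of loops. -/
def loops (e : A → U) (Q : Finset Y) (y : Y) (hy : y ∈ Q) : Subgroup U where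
  carrier := {g | Loop e Q y g}
  one_mem' := ⟨Adm.one, one_smul _ _⟩
  mul_mem' := fun {g h} hg hh => ⟨hh.1.mul (by rw [hh.2]; exact hg.1), by
    rw [mul_smul, hh.2, hg.2]⟩
  inv_mem' := fun {g} hg => ⟨by have h := hg.1.inv hy; rwa [hg.2] at h, by
    rw [inv_smul_eq_iff, hg.2]⟩

theorem mem_loops {e : A → U} {Q : Finset Y} {y : Y} {hy : y ∈ Q} {g : U} :
    g ∈ loops e Q y hy ↔ Loop e Q y g := Iff.rfl

theorem mem_comp {e : A → U} {Q : Finset Y} {y p : Y} :
    p ∈ comp e Q y ↔ p ∈ Q ∧ ∃ g, Adm e Q y g ∧ g • y = p := Finset.mem_filter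

end Graph

section Tree

variable {X : Type} [MetricSpace X]

/-- The directions at points of `P` that meet `V`. -/
def dirs (P V : Finset X) : Finset (X × Set X) :=
  ((P ×ˢ V).filter fun p => p.2 ≠ p.1).image fun p => (p.1, dir p.1 p.2)

theorem mem_dirs {P V : Finset X} {d : X × Set X} :
    d ∈ dirs P V ↔ ∃ x ∈ P, ∃ y ∈ V, y ≠ x ∧ d = (x, dir x y) := by
  simp only [dirs, Finset.mem_image, Finset.mem_filter, Finset.mem_product]
  constructor
  · rintro ⟨p, ⟨⟨h1, h2⟩, h3⟩, rfl⟩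
    exact ⟨p.1, h1, p.2, h2, h3, rfl⟩
  · rintro ⟨x, h1, y, h2, h3, rfl⟩
    exact ⟨(x, y), ⟨⟨h1, h2⟩, h3⟩, rfl⟩

/-- `g` fixes `x` and the direction of `y` at `x`. -/
def FixD {U : Type} [Group U] [MulAction U X] (g : U) (x y : X) : Prop :=
  g • x = x ∧ ¬ Btw y x (g • y)

/-- The small-stabiliser conditions used by the count. -/
structure Sm (U X : Type) [Group U] [MetricSpace X] [MulAction U X] : Prop where
  v1 : ∀ (g h : U) (x y : X), y ≠ x → FixD g x y → FixD h x y → g * h = h * g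
  v3 : ∀ (g : U) (x a b c : X), Tri x a b c → FixD g x a → FixD g x b → FixD g x c → g = 1

/-- Every point is a branch point, and the orbit of `x₀` meets every direction. -/
structure Mn (U : Type) {X : Type} [Group U] [MetricSpace X] [MulAction U X] (x₀ : X) : Prop where
  br : ∀ x : X, ∃ a b c, Tri x a b c
  min : ∀ x y : X, y ≠ x → ∃ g : U, g • x₀ ∈ dir x y

/-- The local index of the component of `y`. -/
def jj {U A : Type} [Group U] [Fintype A] [MulAction U X] (e : A → U) (V : Finset X) (y : X) : ℤ :=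
  chi e (dirs (comp e V y) V) - 2 * chi e (comp e V y)

/-- Finite median closed sets all of whose points branch or are joined to the base point. -/
structure Good {U A : Type} [Group U] [MulAction U X] (e : A → U) (x₀ : X) (V : Finset X) :
    Prop where
  base : x₀ ∈ V
  gen : ∀ a, e a • x₀ ∈ V
  med : MedCl (V : Set X)
  dich : ∀ v ∈ V, (∃ g, Adm e V x₀ g ∧ g • x₀ = v) ∨ ∃ a ∈ V, ∃ b ∈ V, ∃ c ∈ V, Tri v a b c

end Tree

/-! ### Rows -/

/-- Row Low: lower bound for the Euler characteristic. -/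
def StmtLow : Prop := ∀ (U A Y : Type) [Group U] [Fintype A] [MulAction U Y]
  (b : FreeGroupBasis A U) (P T : Finset Y), T ⊆ P →
  (∀ y ∈ P, ∃ c, Loop b P y c ∧ ∀ g, Loop b P y g → g ∈ Subgroup.zpowers c) →
  (∀ y ∈ T, ∀ g, Loop b P y g → g = 1) →
  (∀ y ∈ T, ∀ z ∈ T, ∀ g, Adm b P y g → g • y = z → y = z) → (T.card : ℤ) ≤ chi b P

/-- Row Up: upper bound for the Euler characteristic of a component. -/
def StmtUp : Prop := ∀ (U A Y : Type) [Group U] [Fintype A] [MulAction U Y]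
  (e : A → U) (Q : Finset Y) (y : Y) (r : ℕ), y ∈ Q → Dual (Loop e Q y) r →
  chi e (comp e Q y) ≤ 1 - (r : ℤ)

/-- Row Sum: additivity of the Euler characteristic. -/
def StmtSum : Prop := ∀ (U A Y I : Type) [Group U] [Fintype A] [MulAction U Y]
  (e : A → U) (P : Finset Y) (π : Y → I) (J : Finset I), (∀ p ∈ P, π p ∈ J) →
  (∀ p ∈ P, ∀ a, e a • p ∈ P → π (e a • p) = π p) →
  chi e P = ∑ i ∈ J, chi e (P.filter fun p => π p = i)

/-- Row Free: subgroups of free groups. -/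
def StmtFree : Prop := ∀ (U : Type) [Group U] [IsFreeGroup U],
  (∀ (H : Subgroup U) (r : ℕ), Dual (fun g => g ∈ H) r ∨
    ∃ F : Finset U, F.card < r ∧ Subgroup.closure (F : Set U) = H) ∧
  (∀ H : Subgroup U, (∀ g ∈ H, ∀ h ∈ H, g * h = h * g) →
    ∃ c ∈ H, ∀ g ∈ H, g ∈ Subgroup.zpowers c) ∧
  ∀ (g : U) (n : ℤ), n ≠ 0 → g ^ n = 1 → g = 1

/-- Row Cnt: the number of directions of a finite median closed set. -/
def StmtCnt : Prop := ∀ (X : Type) [MetricSpace X] [IsTree X] (V : Finset X), V.Nonempty →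
  MedCl (V : Set X) → ((dirs V V).card : ℤ) = 2 * V.card - 2

/-- Row Glob: the global count. -/
def StmtGlob : Prop := ∀ (U A X : Type) [Group U] [Fintype A] [MetricSpace X] [IsTree X]
  [MulAction U X] [BAct U X] (e : A → U) (x₀ : X) (V : Finset X), x₀ ∈ V → (∀ a, e a • x₀ ∈ V) →
  MedCl (V : Set X) → chi e (dirs V V) - 2 * chi e V ≤ 2 * (Fintype.card A : ℤ) - 2

/-- Row Loc: lower bounds for the local index. -/
def StmtLoc : Prop := ∀ (U A X : Type) [Group U] [Fintype A] [MetricSpace X] [IsTree X]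
  [MulAction U X] [BAct U X] (b : FreeGroupBasis A U) (V : Finset X) (y : X), Sm U X → y ∈ V →
  ((∃ p ∈ V, ∃ q ∈ V, ∃ r ∈ V, Tri y p q r) → 1 ≤ jj b V y) ∧
  (∀ r : ℕ, Dual (Loop b V y) r → 2 * (r : ℤ) - 2 ≤ jj b V y) ∧
  ∀ T : Finset X, T ⊆ V → (∀ z ∈ T, z ≠ y ∧ ∀ g : U, FixD g y z → g = 1) →
    (∀ z ∈ T, ∀ w ∈ T, ∀ g : U, g • y = y → g • z ∈ dir y w → z = w) →
    (T.card : ℤ) - 2 ≤ jj b V y

/-- Row Main: few components, each of small index. -/
def StmtMain : Prop := ∀ (U A X : Type) [Group U] [Fintype A] [MetricSpace X] [IsTree X]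
  [MulAction U X] [BAct U X] (b : FreeGroupBasis A U) (x₀ : X) (V : Finset X), Sm U X →
  Good b x₀ V → (∀ y ∈ V, jj b V y ≤ 2 * (Fintype.card A : ℤ)) ∧
    ∃ R : Finset X, R ⊆ V ∧ R.card ≤ 2 * Fintype.card A + 1 ∧
      ∀ v ∈ V, ∃ r ∈ R, ∃ g, Adm b V r g ∧ g • r = v

/-- Row Big: good sets exhaust the tree, and see any given finite set of paths. -/
def StmtBig : Prop := ∀ (U A X : Type) [Group U] [Fintype A] [MetricSpace X] [IsTree X]
  [MulAction U X] [BAct U X] (b : FreeGroupBasis A U) (x₀ : X), Mn U x₀ →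
  ∀ (F : Finset X) (W : Finset U), ∃ V : Finset X, Good b x₀ V ∧ F ⊆ V ∧
    ∀ y ∈ F, ∀ w ∈ W, Adm b V y w

/-- The conclusions of the index count. -/
structure Ix {U A X : Type} [Group U] [Fintype A] [MetricSpace X] [MulAction U X] (e : A → U)
    (x₀ : X) : Prop where
  i1 : ∃ F : Finset X, F.card ≤ 2 * Fintype.card A + 1 ∧ ∀ x : X, ∃ g : U, g • x ∈ F
  i2 : ∀ x : X, ∃ F : Finset X, F.card ≤ 2 * Fintype.card A + 2 ∧ ∀ y, y ≠ x →
    (∀ g : U, FixD g x y → g = 1) → ∃ g : U, g • x = x ∧ ∃ z ∈ F, z ≠ x ∧ g • y ∈ dir x z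
  i4 : ∀ x : X, ∃ F : Finset U, F.card ≤ Fintype.card A + 1 ∧
    Subgroup.closure (F : Set U) = MulAction.stabilizer U x
  core : ∀ F : Finset X, ∃ V : Finset X, F ⊆ V ∧ x₀ ∈ V ∧ (∀ a, e a • x₀ ∈ V) ∧
    MedCl (V : Set X) ∧ ∃ R : Finset X, R.card ≤ 2 * Fintype.card A + 1 ∧ ∀ v ∈ V, ∃ r ∈ R,
      Relation.EqvGen (fun p q => p ∈ V ∧ q ∈ V ∧ ∃ a, q = e a • p) r v

/-- The index lemma. -/
def StmtIx : Prop := ∀ (U A X : Type) [Group U] [Fintype A] [MetricSpace X] [IsTree X]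
  [MulAction U X] [BAct U X] (b : FreeGroupBasis A U) (x₀ : X), Sm U X → Mn U x₀ → Ix b x₀

end

end Pool.Agent.MP_3ce0a0_al.Q2T6I
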